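import Pool.Agent.Helper26.OUT.Mk
import Pool.Agent.Helper49.MD.Lim

/-! WEIGHTED DEGREES ARE CLOSED under restrictions to events, extensions, more types, truncations, diagonals. -/

set_option autoImplicit false

namespace Pool.Agent.Helper26.OUT

open Finset Filter Topology Matrix MvPolynomial Pool.Agent.Helper69.RK Pool.Agent.Helper31.EC Pool.Agent.Helper31.EC.Sp
open Pool.Agent.Helper40.EL Pool.Agent.Helper89.LX Pool.Agent.Helper3.LF Pool.Agent.Helper84.MT Pool.Agent.Helper36.AM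
open Pool.Agent.Helper49.MD

noncomputable section

variable {S T : Sp} {M : ℕ} {E : ℕ → ℕ} {ι κ : Type}

/-- the function is a polynomial of degree at most `d` -/
def Wf (d : ℝ) {e : ℕ} (f : (Fin e → ℝ) → ℝ) : Prop := ∃ G : MvPolynomial (Fin e) ℝ, (∀ y, f y = eval y G) ∧
  (G.totalDegree : ℝ) ≤ d

/-- a leaf of weighted degree `w` -/
def WDl (w : Fin M → ℝ) {Q : S.VV M} (l : Leaf S Q E) : Prop := ∀ᶠ k in UF, ∀ ω, (S.F k).μ ω ≠ 0 → ∀ j,
  Wf (w j) (fun y => l.F k ω y j)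

theorem WDs_iff {w : Fin M → ℝ} (hw : ∀ j, 0 ≤ w j) {s : MSys S M E ι} : WDs w s ↔ ∀ i, WDl w (s.lf i) := by
  classical
  constructor
  · intro h i
    obtain ⟨G, h1, h2⟩ := h i
    filter_upwards [h1] with k hk ω hω j
    exact ⟨G k ω j, fun y => hk ω hω y j, h2 k ω j⟩
  · intro h i
    have h1 := h i
    refine ⟨fun k ω j => if hx : Wf (w j) (fun y => (s.lf i).F k ω y j) then hx.choose else 0, ?_, ?_⟩
    · filter_upwards [h1] with k hk ω hω y j
      have h2 := hk ω hω j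
      rw [dif_pos h2]
      exact h2.choose_spec.1 y
    · intro k ω j
      dsimp only
      split_ifs with hx
      · exact hx.choose_spec.2
      · rw [totalDegree_zero, Nat.cast_zero]
        exact hw j

theorem WDl.im {w : Fin M → ℝ} {Q : S.VV M} {l : Leaf S Q E} (h : WDl w l) (p : Pj T S) (A : ∀ k, (T.F k).Ω → Prop)
    (hA : 0 < ul (T.pr A)) : WDl w (l.im p A hA) := by
  filter_upwards [h] with k hk ω hω j
  exact hk ω (FSp.im_supp (p.fp k) (A k) ω hω) j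

theorem WDl.pull {w : Fin M → ℝ} {Q : S.VV M} {l : Leaf S Q E} (h : WDl w l) (p : Pj T S) : WDl w (l.pull p) := by
  filter_upwards [h] with k hk ω hω j
  exact hk _ (p.supp k ω hω) j

theorem WDl.trn {w : Fin M → ℝ} {Q : S.VV M} {l : Leaf S Q E} (h : WDl w l) (r : ℝ) (h0 : 0 < r) (h1 : r ≤ 1) :
    WDl w (l.trn r h0 h1) := by
  filter_upwards [h] with k hk ω hω j
  exact hk ω hω j

theorem WDs.im {w : Fin M → ℝ} (hw : ∀ j, 0 ≤ w j) {s : MSys S M E ι} (h : WDs w s) (p : Pj T S)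
    (A : ∀ k, (T.F k).Ω → Prop) (hA : 0 < ul (T.pr A)) : WDs w (s.im p A hA) :=
  (WDs_iff hw).mpr fun i => ((WDs_iff hw).mp h i).im p A hA

theorem WDs.pull {w : Fin M → ℝ} (hw : ∀ j, 0 ≤ w j) {s : MSys S M E ι} (h : WDs w s) (p : Pj T S) :
    WDs w (s.pull p) := (WDs_iff hw).mpr fun i => ((WDs_iff hw).mp h i).pull p

theorem WDs.trn {w : Fin M → ℝ} (hw : ∀ j, 0 ≤ w j) {s : MSys S M E ι} (h : WDs w s) (r : ℝ) (h0 : 0 < r)
    (h1 : r ≤ 1) : WDs w (s.trn r h0 h1) := (WDs_iff hw).mpr fun i => ((WDs_iff hw).mp h i).trn r h0 h1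

theorem WDs.ren {w : Fin M → ℝ} {s : MSys S M E ι} (h : WDs w s) (f : κ → ι) : WDs w (s.ren f) := fun i => h (f i)

theorem WDs.union {w : Fin M → ℝ} (hw : ∀ j, 0 ≤ w j) {s : MSys S M E ι} (h : WDs w s) {l : κ → Leaf S s.Q E}
    (hl : ∀ i, WDl w (l i)) : WDs w (s.union l) := by
  refine (WDs_iff hw).mpr fun i => ?_
  rcases i with i | i
  · exact (WDs_iff hw).mp h i
  · exact hl i

theorem WDs.add {w : Fin M → ℝ} (hw : ∀ j, 0 ≤ w j) {s : MSys S M E ι} (h : WDs w s) (p : Pj T S)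
    {l : κ → Leaf T (p.vv s.Q) E} (hl : ∀ i, WDl w (l i)) : WDs w (MSys.add p s l) :=
  WDs.union hw (h.pull hw p) hl

theorem WDs.mono {w w' : Fin M → ℝ} (hw : ∀ j, w j ≤ w' j) {s : MSys S M E ι} (h : WDs w s) : WDs w' s := by
  intro i
  obtain ⟨G, h1, h2⟩ := h i
  exact ⟨G, h1, fun k ω j => (h2 k ω j).trans (hw j)⟩

/-! ### diagonals -/

/-- weighted degrees as an approximate predicate -/
def wdA (w : Fin M → ℝ) (ι : Type) : AP (KM M ι) where
  P := fun F x _ => ∀ i, ∀ ω, F.μ ω ≠ 0 → ∀ j, Wf (w j) (fun y => ((x : FMs F.Ω M ι).lf i).F ω y j)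
  mono := fun _ _ _ _ _ h => h

theorem WDs_pd [Finite ι] {w : Fin M → ℝ} (hw : ∀ j, 0 ≤ w j) {s : MSys S M E ι} :
    WDs w s ↔ (wdA w ι).pd 0 S (ob s) := by
  rw [WDs_iff hw]
  constructor
  · intro h δ _
    exact eventually_all.2 fun i => h i
  · intro h i
    exact (eventually_all.1 (h 1 one_pos)) i

/-- classes cut out by a predicate on objects -/
theorem lft_and_pd {C : ∀ S : Sp, MSys S M E ι → Prop} {P : (KM M ι).Pd} (hP : Inv P) {x : (KM M ι).Ob S} :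
    lft (fun S s => C S s ∧ P S (ob s)) S x ↔ lft C S x ∧ P S x := by
  constructor
  · rintro ⟨s, hs, h1, h2⟩
    exact ⟨⟨s, hs, h1⟩, hP S (ob s) x hs h2⟩
  · rintro ⟨⟨s, hs, h1⟩, h2⟩
    exact ⟨s, hs, h1, hP S x (ob s) (hs.mono fun _ hk => hk.symm) h2⟩

theorem lft_congr {C C' : ∀ S : Sp, MSys S M E ι → Prop} (h : ∀ S s, C S s ↔ C' S s) {x : (KM M ι).Ob S} :
    lft C S x ↔ lft C' S x :=
  ⟨fun ⟨s, hs, h1⟩ => ⟨s, hs, (h S s).mp h1⟩, fun ⟨s, hs, h1⟩ => ⟨s, hs, (h S s).mpr h1⟩⟩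

theorem DiagCl.lft_and {C : ∀ S : Sp, MSys S M E ι → Prop} {P : (KM M ι).Pd} (hC : DiagCl (lft C)) (hP : Inv P)
    (hP2 : DiagCl P) : DiagCl (lft fun S s => C S s ∧ P S (ob s)) :=
  (DiagCl.and hC hP2).mono (fun _ _ _ h => (lft_and_pd hP).mp h) (fun _ _ h => (lft_and_pd hP).mpr h)

/-- DIAGONALS: weighted degrees are kept -/
theorem DiagCl.wd [Finite ι] {w : Fin M → ℝ} (hw : ∀ j, 0 ≤ w j) {C : ∀ S : Sp, MSys S M E ι → Prop}
    (hC : DiagCl (lft C)) : DiagCl (lft fun S s => C S s ∧ WDs w s) :=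
  (DiagCl.lft_and hC ((wdA w ι).inv 0) ((wdA w ι).diagCl 0)).mono
    (fun _ _ _ h => (lft_congr fun _ _ => and_congr_right fun _ => WDs_pd hw).mp h)
    (fun _ _ h => (lft_congr fun _ _ => and_congr_right fun _ => WDs_pd hw).mpr h)

end

end Pool.Agent.Helper26.OUT
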