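import Pool.Agent.Helper26.OUT.Gu

/-! ZOOM IN THE COORDINATES OF A FRAME, part 3: existence, for systems of polynomial leaves of weighted degree; the zoom
is again a system of polynomial leaves of the same weighted degree. -/

set_option autoImplicit false

namespace Pool.Agent.Helper26.OUT

open Finset Filter Topology Matrix MvPolynomial Pool.Agent.Helper69.RK Pool.Agent.Helper31.EC Pool.Agent.Helper31.EC.Sp
open Pool.Agent.Helper40.EL Pool.Agent.Helper89.LX Pool.Agent.Helper3.LF Pool.Agent.Helper84.MT Pool.Agent.Helper36.AM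
open Pool.Agent.Helper7.GZ (ZU ofPolyT ofPolyT_win_le ofPolyT_win_ge)
open Pool.Agent.Helper89.TAY (crn)

noncomputable section

variable {S : Sp} {M : ℕ} {E : ℕ → ℕ} {ι : Type}

/-- WEIGHTED DEGREES: the charts are polynomials, the coordinate `j` has degree at most `w j` -/
def WDs (w : Fin M → ℝ) (s : MSys S M E ι) : Prop := ∀ i, ∃ G : ∀ k, (S.F k).Ω → Fin M →
  MvPolynomial (Fin (s.lf i).e) ℝ, (∀ᶠ k in UF, ∀ ω, (S.F k).μ ω ≠ 0 → ∀ y j, (s.lf i).F k ω y j =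
    MvPolynomial.eval y (G k ω j)) ∧ ∀ k ω j, ((G k ω j).totalDegree : ℝ) ≤ w j

/-- the chart of a type in the coordinates of the frame -/
def gch {Q : S.VV M} (lf : Leaf S Q E) (G : ∀ k, (S.F k).Ω → Fin M → MvPolynomial (Fin lf.e) ℝ) {l : Lab S}
    {La : Fin M → ℝ} (f : Frm Q l La) (c : ℝ) (k : ℕ) (ω : (l k).T.Ω) (j : Fin M) : MvPolynomial (Fin lf.e) ℝ :=
  bind₁ (fun a => C (crn lf c k ((l k).p.π ω) a) + C (S.dl c k) * X a) (bind₁ (G k ((l k).p.π ω)) (f.row k ω j))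

section chart

variable {Q : S.VV M} (lf : Leaf S Q E) (G : ∀ k, (S.F k).Ω → Fin M → MvPolynomial (Fin lf.e) ℝ) {l : Lab S}
    {La : Fin M → ℝ} (f : Frm Q l La) (c : ℝ)

theorem gch_eval (k : ℕ) (ω : (l k).T.Ω) (j : Fin M) (y : Fin lf.e → ℝ) : eval y (gch lf G f c k ω j) =
    eval (fun i => eval (fun a => crn lf c k ((l k).p.π ω) a + S.dl c k * y a) (G k ((l k).p.π ω) i)) (f.row k ω j) := by
  unfold gch
  rw [eval_aff, Pool.Agent.Helper81.MI.eval_bind]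

theorem gch_deg {w : Fin M → ℝ} (hw : ∀ j, 0 ≤ w j) (hc : 0 < c) (hLa : ∀ j, La j = w j * c)
    (hG : ∀ k ω j, ((G k ω j).totalDegree : ℝ) ≤ w j) (k : ℕ) (ω : (l k).T.Ω) (j : Fin M) :
    ((gch lf G f c k ω j).totalDegree : ℝ) ≤ w j := by
  have h1 : ((bind₁ (G k ((l k).p.π ω)) (inv (f.P k ω) j)).totalDegree : ℝ) ≤ w j := by
    apply tdeg_inv (f.tri k ω) w hw _ _ (fun j => hG k _ j)
    intro j a ha h0
    have h2 := f.red k ω j a ha h0
    rw [hLa] at h2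
    have h3 : ∑ i, (a i : ℝ) * La i = (∑ i, (a i : ℝ) * w i) * c := by
      rw [Finset.sum_mul]
      refine Finset.sum_congr rfl fun i _ => ?_
      rw [hLa]
      ring
    rw [h3] at h2
    exact (lt_of_mul_lt_mul_right h2 hc.le).le
  refine le_trans ?_ h1
  have h2 : (gch lf G f c k ω j).totalDegree ≤ (bind₁ (G k ((l k).p.π ω)) (inv (f.P k ω) j)).totalDegree := by
    refine (tdeg_aff _ _ _).trans ?_
    show (bind₁ (G k ((l k).p.π ω)) (C (S.dl (La j) k)⁻¹ * inv (f.P k ω) j)).totalDegree ≤ _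
    rw [map_mul, bind₁_C_right]
    refine (totalDegree_mul _ _).trans ?_
    rw [totalDegree_C, zero_add]
  exact_mod_cast h2

/-- the value of the chart at the parameter -/
theorem gch_pt (h0 : ∀ i, 0 ≤ La i) {κ : ℕ} (hκ : ∀ k ω j, (f.P k ω j).totalDegree ≤ κ) {e : ℝ}
    (hLe : ∀ j, La j + e ≤ 1) : ∃ K : ℕ → ℝ, S.Sub K ∧ ∀ᶠ k in UF, ∀ ω : (l k).T.Ω, (l k).T.μ ω ≠ 0 → ∀ j,
      |f.X.v k ω j - eval (lf.F k ((l k).p.π ω) (lf.Y.v k ((l k).p.π ω))) (f.row k ω j)| ≤ K k * S.dl e k := by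
  obtain ⟨Kp, hKp, h1⟩ := lf.pt
  obtain ⟨K, hK, h2⟩ := row_val f h0 hκ hKp
  refine ⟨K, hK, ?_⟩
  filter_upwards [h1, h2, hK.1] with k a1 a2 hK0
  intro ω hω j
  have h3 := a2 ω hω (lf.F k ((l k).p.π ω) (lf.Y.v k ((l k).p.π ω))) (fun i => by
    rw [abs_sub_comm]
    exact a1 _ ((l k).p.supp ω hω) i) j
  rw [abs_sub_comm]
  exact h3.trans (mul_le_mul_of_nonneg_left (S.dl_anti (by linarith [hLe j]) k) hK0)

variable (hF : ∀ᶠ k in UF, ∀ ω, (S.F k).μ ω ≠ 0 → ∀ y j, lf.F k ω y j = MvPolynomial.eval y (G k ω j))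
include hF

theorem chart_fn : ∀ᶠ k in UF, ∀ ω ω', (S.F k).μ ω ≠ 0 → (S.F k).μ ω' ≠ 0 → (S.F k).Z ω ω' → lf.La k ω ω' →
    G k ω = G k ω' := by
  filter_upwards [hF, lf.fn] with k h1 h2 ω ω' a b z r
  have h3 := h2 ω ω' a b z r
  funext j
  apply MvPolynomial.funext
  intro y
  rw [← h1 ω a, ← h1 ω' b, h3]

/-- TAME COEFFICIENTS on a typical event -/
theorem gch_typ (h0 : ∀ i, 0 ≤ La i) {κ : ℕ} (hκ : ∀ k ω j, (f.P k ω j).totalDegree ≤ κ) {e : ℝ} (he : 0 ≤ e)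
    (hLe : ∀ j, La j + e ≤ 1) (hc0 : 0 ≤ c) (hc1 : c < 1) (hl : Nul S (fun k => (l k).leak (lf.win c k))) {g : ℕ}
    (hg : ∀ k ω j, (gch lf G f c k ω j).totalDegree ≤ g) : ∃ K : ℕ → ℝ, S.Sub K ∧
      Typ (S := l.sp) (fun k (ω : (l k).T.Ω) => ∀ j a, |(gch lf G f c k ω j).coeff a| ≤ K k) := by
  classical
  obtain ⟨C', hC', hco⟩ := coeff_nodes lf.e g
  obtain ⟨Kx, hKx', hx⟩ := f.X.bd
  have hKx : S.Sub Kx := (sp_Sub l).mp hKx'
  obtain ⟨Kp, hKp, hp⟩ := gch_pt lf f h0 hκ hLe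
  have key : ∀ j : Fin M, ∃ K : ℕ → ℝ, S.Sub K ∧ Typ (S := l.sp) (fun k (ω : (l k).T.Ω) =>
      ∀ a, |(gch lf G f c k ω j).coeff a| ≤ K k) := by
    intro j
    obtain ⟨K', hK', hT⟩ := typ_pol lf hc0 hc1 l hl (D := (κ + 1) ^ M)
      (fun k w p => eval p (f.row k w j))
      (Eventually.of_forall fun k w _ => ⟨f.row k w j, by
        rw [one_mul]
        exact f.row_deg hκ k w j, rfl⟩) (κ := fun _ => 1) (S.Sub_const zero_le_one) (by
        filter_upwards [f.row_ms] with k hk w w' a b z v _ _ p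
        rw [hk w w' a b v z, one_mul])
    refine ⟨fun k => C' * (K' k * (Kx k + Kp k)), (S.Sub_const hC').mul (hK'.mul (hKx.add hKp)), hT.mono ?_⟩
    filter_upwards [hF, hx, hp, hK'.1, hKx.1, hKp.1] with k a1 a2 a3 hK0 hKx0 hKp0
    intro (ω : (l k).T.Ω) hω h1
    have hω' : (l k).T.μ ω ≠ 0 := hω
    have hS := (l k).p.supp ω hω'
    have hd := S.dl_pos c k
    have h2 : |eval (lf.F k ((l k).p.π ω) (lf.Y.v k ((l k).p.π ω))) (f.row k ω j)| ≤ Kx k + Kp k := by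
      have b1 := a3 ω hω' j
      have b2 : |f.X.v k ω j| ≤ Kx k := a2 ω hω j
      have b3 : S.dl e k ≤ 1 := by
        rw [← S.dl_zero k]
        exact S.dl_anti he k
      have b4 : Kp k * S.dl e k ≤ Kp k := mul_le_of_le_one_right hKp0 b3
      have b5 : eval (lf.F k ((l k).p.π ω) (lf.Y.v k ((l k).p.π ω))) (f.row k ω j) = f.X.v k ω j -
        (f.X.v k ω j - eval (lf.F k ((l k).p.π ω) (lf.Y.v k ((l k).p.π ω))) (f.row k ω j)) := by ring
      rw [b5]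
      refine (abs_sub _ _).trans ?_
      linarith
    intro a
    refine hco _ (hg k ω j) (K' k * (Kx k + Kp k)) (by positivity) (fun m => ?_) a
    rw [gch_eval]
    have h3 : (fun i => eval (fun a => crn lf c k ((l k).p.π ω) a + S.dl c k * nod g (m a)) (G k ((l k).p.π ω) i)) =
        lf.F k ((l k).p.π ω) (fun a => crn lf c k ((l k).p.π ω) a + S.dl c k * nod g (m a)) := by
      funext i
      exact (a1 _ hS _ i).symm
    rw [h3]
    have h4 := h1 (fun a => crn lf c k ((l k).p.π ω) a + S.dl c k * nod g (m a)) (fun i => by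
      have n0 := nod_nonneg g (m i)
      have n1 : nod g (m i) < 1 := by
        unfold nod
        rw [div_lt_one (by positivity)]
        exact_mod_cast (m i).2
      have f0 := Int.floor_le (lf.Y.v k ((l k).p.π ω) i / S.dl c k)
      have f1 := Int.lt_floor_add_one (lf.Y.v k ((l k).p.π ω) i / S.dl c k)
      have e1 : crn lf c k ((l k).p.π ω) i + S.dl c k * nod g (m i) - lf.Y.v k ((l k).p.π ω) i =
          S.dl c k * (nod g (m i) - (lf.Y.v k ((l k).p.π ω) i / S.dl c k -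
            ⌊lf.Y.v k ((l k).p.π ω) i / S.dl c k⌋)) := by
        unfold crn
        field_simp
        ring
      show |crn lf c k ((l k).p.π ω) i + S.dl c k * nod g (m i) - lf.Y.v k ((l k).p.π ω) i| < S.dl c k
      rw [e1, abs_mul, abs_of_pos hd]
      have h5 : |nod g (m i) - (lf.Y.v k ((l k).p.π ω) i / S.dl c k -
            ⌊lf.Y.v k ((l k).p.π ω) i / S.dl c k⌋)| < 1 := by
        rw [abs_lt]
        constructor <;> linarith
      calc S.dl c k * _ < S.dl c k * 1 := mul_lt_mul_of_pos_left h5 hd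
        _ = S.dl c k := mul_one _)
    exact h4.trans (mul_le_mul_of_nonneg_left h2 hK0)
  choose K hK hT using key
  refine ⟨fun k => ∑ j, K j k, ?_, ?_⟩
  · have h2 : ∀ s : Finset (Fin M), S.Sub (fun k => ∑ j ∈ s, K j k) := by
      intro s
      induction s using Finset.induction_on with
      | empty =>
        simp only [Finset.sum_empty]
        exact S.Sub_const le_rfl
      | insert a s ha ih =>
        simp only [Finset.sum_insert ha]
        exact (hK a).add ih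
    exact h2 _
  · have hpos : ∀ᶠ k in UF, ∀ j, 0 ≤ K j k := eventually_all.2 fun j => (hK j).1
    refine (Pool.Agent.Helper7.GZ.Typ_all _ hT).mono ?_
    filter_upwards [hpos] with k h0 ω _ h1 j a
    exact (h1 j a).trans (Finset.single_le_sum (f := fun j => K j k) (fun i _ => h0 i) (Finset.mem_univ j))

end chart

open Classical in
/-- the charts of a leaf `ofPolyT` -/
theorem ofPolyT_wd {Q : S.VV M} (g : ℕ) (hg : 1 ≤ g) (e : ℕ) (he : e ≤ g) (La : ∀ k, Setoid (S.F k).Ω) (Y : S.VV e)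
    (G : ∀ k, (S.F k).Ω → Fin M → MvPolynomial (Fin e) ℝ) (deg : ∀ k ω i, (G k ω i).totalDegree ≤ g)
    (fn : ∀ᶠ k in UF, ∀ ω ω', (S.F k).μ ω ≠ 0 → (S.F k).μ ω' ≠ 0 → (S.F k).Z ω ω' → La k ω ω' → G k ω = G k ω')
    (A : ∀ k, (S.F k).Ω → Prop) (hA : Typ A)
    (pt : ∃ K : ℕ → ℝ, S.Sub K ∧ ∀ᶠ k in UF, ∀ ω, (S.F k).μ ω ≠ 0 → A k ω → (∀ i a, |(G k ω i).coeff a| ≤ K k) ∧
      ∀ i, |Q.v k ω i - MvPolynomial.eval (Y.v k ω) (G k ω i)| ≤ K k * S.dl 1 k)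
    (full : Tendsto (fun k => h (fc (Setoid.ker (Y.cellv 1 k))) (fc (La k)) / (S.F k).n) UF (𝓝 e)) :
    ∃ G' : ∀ k, (S.F k).Ω → Fin M → MvPolynomial (Fin (ofPolyT g hg e he La Y G deg fn A hA pt full).e) ℝ,
      (∀ k ω y j, (ofPolyT g hg e he La Y G deg fn A hA pt full).F k ω y j = MvPolynomial.eval y (G' k ω j)) ∧
        ∀ k ω j, (G' k ω j).totalDegree ≤ (G k ω j).totalDegree := by
  refine ⟨fun k ω j => if A k ω then G k ω j else MvPolynomial.C (rnd (S.dl 1 k) (Q.v k ω j)), fun k ω y j => rfl,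
    fun k ω j => ?_⟩
  show (if A k ω then G k ω j else MvPolynomial.C (rnd (S.dl 1 k) (Q.v k ω j))).totalDegree ≤ _
  split_ifs
  · exact le_rfl
  · rw [MvPolynomial.totalDegree_C]
    exact Nat.zero_le _

/-- the charts of a leaf `ofPolyT` on the event -/
theorem ofPolyT_F {Q : S.VV M} (g : ℕ) (hg : 1 ≤ g) (e : ℕ) (he : e ≤ g) (La : ∀ k, Setoid (S.F k).Ω) (Y : S.VV e)
    (G : ∀ k, (S.F k).Ω → Fin M → MvPolynomial (Fin e) ℝ) (deg : ∀ k ω i, (G k ω i).totalDegree ≤ g)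
    (fn : ∀ᶠ k in UF, ∀ ω ω', (S.F k).μ ω ≠ 0 → (S.F k).μ ω' ≠ 0 → (S.F k).Z ω ω' → La k ω ω' → G k ω = G k ω')
    (A : ∀ k, (S.F k).Ω → Prop) (hA : Typ A)
    (pt : ∃ K : ℕ → ℝ, S.Sub K ∧ ∀ᶠ k in UF, ∀ ω, (S.F k).μ ω ≠ 0 → A k ω → (∀ i a, |(G k ω i).coeff a| ≤ K k) ∧
      ∀ i, |Q.v k ω i - MvPolynomial.eval (Y.v k ω) (G k ω i)| ≤ K k * S.dl 1 k)
    (full : Tendsto (fun k => h (fc (Setoid.ker (Y.cellv 1 k))) (fc (La k)) / (S.F k).n) UF (𝓝 e)) (k : ℕ)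
    (ω : (S.F k).Ω) (hω : A k ω) (y : Fin e → ℝ) (j : Fin M) :
    (ofPolyT g hg e he La Y G deg fn A hA pt full).F k ω y j = MvPolynomial.eval y (G k ω j) := by
  classical
  show MvPolynomial.eval y (if A k ω then G k ω j else MvPolynomial.C (rnd (S.dl 1 k) (Q.v k ω j))) = _
  rw [if_pos hω]

/-- the identity of the charts -/
theorem gch_rel {Q : S.VV M} (lf : Leaf S Q E) (G : ∀ k, (S.F k).Ω → Fin M → MvPolynomial (Fin lf.e) ℝ) {l : Lab S}
    {La : Fin M → ℝ} (f : Frm Q l La) (c : ℝ) (k : ℕ) (ω : (l k).T.Ω) (x : Fin M → ℝ) (y : Fin lf.e → ℝ)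
    (hx : (fun i => eval (fun a => crn lf c k ((l k).p.π ω) a + S.dl c k * y a) (G k ((l k).p.π ω) i)) = x) (j : Fin M) :
    x j = eval (fun a => S.dl (La a) k * eval y (gch lf G f c k ω a)) (f.P k ω j) +
      S.dl (La j) k * eval y (gch lf G f c k ω j) := by
  have h1 : ∀ a, S.dl (La a) k * eval y (gch lf G f c k ω a) = eval x (inv (f.P k ω) a) := by
    intro a
    have hd := (S.dl_pos (La a) k).ne'
    rw [gch_eval, hx]
    show S.dl (La a) k * eval x (C (S.dl (La a) k)⁻¹ * inv (f.P k ω) a) = _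
    rw [map_mul, eval_C, ← mul_assoc, mul_inv_cancel₀ hd, one_mul]
  have h2 : (fun a => S.dl (La a) k * eval y (gch lf G f c k ω a)) = fun a => eval x (inv (f.P k ω) a) := funext h1
  rw [h2, h1 j, inv_eval (f.tri k ω) x j]
  ring

/-- the point of the zoom -/
def zpt {l : Lab S} (X : l.sp.VV M) (e : ℝ) (he : 0 < e) : (l.ovr e he).VV M := X.chg l.V e he

section build

variable {s : MSys S M E ι} {l : Lab S} {w La : Fin M → ℝ} {c e : ℝ}

/-- THE TYPE `i` OF THE ZOOM -/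
theorem exists_leaf (f : Frm s.Q l La) (hc : 0 < c) (he : 0 < e) (hce : c + e ≤ 1) (hl : s.DMc c l)
    (h1w : ∀ j, 1 ≤ w j) (hLa : ∀ j, La j = w j * c) (hLe : ∀ j, La j + e ≤ 1) {g : ℕ} (hg : 1 ≤ g)
    (hwg : ∀ j, w j ≤ g) (hW : WDs w s) (i : ι) (hei : (s.lf i).e ≤ g) :
    ∃ t : Leaf (l.ovr e he) (zpt f.X e he) (lin g), t.e = (s.lf i).e ∧
      (∃ G : ∀ k, ((l.ovr e he).F k).Ω → Fin M → MvPolynomial (Fin t.e) ℝ, (∀ᶠ k in UF, ∀ ω,
        ((l.ovr e he).F k).μ ω ≠ 0 → ∀ y j, t.F k ω y j = MvPolynomial.eval y (G k ω j)) ∧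
          ∀ k ω j, ((G k ω j).totalDegree : ℝ) ≤ w j) ∧
      (∀ b : ℝ, 0 ≤ b → PLe (t.win b) (l.up e he ((s.lf i).win (c + e * b))) ∧
        PLe (l.up e he ((s.lf i).win (c + e * b))) (t.win b)) ∧ Lfr (s.lf i) f c e he t := by
  classical
  obtain ⟨G, hF, hG⟩ := hW i
  have hw0 : ∀ j, 0 ≤ w j := fun j => zero_le_one.trans (h1w j)
  have h0 : ∀ j, 0 ≤ La j := fun j => by
    rw [hLa]
    exact mul_nonneg (hw0 j) hc.le
  have hκ : ∀ k ω j, (f.P k ω j).totalDegree ≤ ⌈(g : ℝ)⌉₊ := by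
    have h2 : La = fun j => w j * c := funext hLa
    subst h2
    exact Frm.deg hc h1w hwg f
  rw [Nat.ceil_natCast] at hκ
  have hdeg : ∀ k (ω : (l k).T.Ω) j, ((gch (s.lf i) G f c k ω j).totalDegree : ℝ) ≤ w j :=
    gch_deg (s.lf i) G f c hw0 hc hLa hG
  have hdg : ∀ k (ω : (l k).T.Ω) j, (gch (s.lf i) G f c k ω j).totalDegree ≤ g := fun k ω j => by
    exact_mod_cast (hdeg k ω j).trans (hwg j)
  obtain ⟨K, hK, hT⟩ := gch_typ (s.lf i) G f c hF h0 hκ he.le hLe hc.le (by linarith) (hl (some i)) hdg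
  obtain ⟨Kp, hKp, hpt⟩ := gch_pt (s.lf i) f h0 hκ hLe
  have hfn := chart_fn (s.lf i) G hF
  obtain ⟨Z, hZ⟩ : ∃ Z : ZU S, Z = ⟨l, c, e, hc.le, he, hce⟩ := ⟨_, rfl⟩
  subst hZ
  set Z : ZU S := ⟨l, c, e, hc.le, he, hce⟩ with hZ
  have fn : ∀ᶠ k in UF, ∀ ω ω', (Z.sp.F k).μ ω ≠ 0 → (Z.sp.F k).μ ω' ≠ 0 → (Z.sp.F k).Z ω ω' →
      (Z.zLa (s.lf i) k) ω ω' → gch (s.lf i) G f c k ω = gch (s.lf i) G f c k ω' := by
    filter_upwards [f.row_ms, hfn] with k a1 a2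
    intro (ω : (l k).T.Ω) (ω' : (l k).T.Ω) a b z r
    obtain ⟨z1, z2, z3⟩ := Z.hZ k ω ω' a b z
    have h2 : f.row k ω = f.row k ω' := a1 ω ω' a b z1 z2
    have h3 : G k ((l k).p.π ω) = G k ((l k).p.π ω') :=
      a2 _ _ ((l k).p.supp ω a) ((l k).p.supp ω' b) z3 r.1
    have h4 : crn (s.lf i) c k ((l k).p.π ω) = crn (s.lf i) c k ((l k).p.π ω') := by
      funext m
      have h5 : ⌊(s.lf i).Y.v k ((l k).p.π ω) m / S.dl c k⌋ = ⌊(s.lf i).Y.v k ((l k).p.π ω') m / S.dl c k⌋ :=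
        congrFun r.2 m
      show S.dl c k * (⌊(s.lf i).Y.v k ((l k).p.π ω) m / S.dl c k⌋ : ℝ) =
        S.dl c k * (⌊(s.lf i).Y.v k ((l k).p.π ω') m / S.dl c k⌋ : ℝ)
      rw [h5]
    funext j
    unfold gch
    rw [h2, h3, h4]
  have pt : ∃ K' : ℕ → ℝ, Z.sp.Sub K' ∧ ∀ᶠ k in UF, ∀ ω, (Z.sp.F k).μ ω ≠ 0 →
      (∀ j a, |(gch (s.lf i) G f c k ω j).coeff a| ≤ K k) → (∀ j a, |(gch (s.lf i) G f c k ω j).coeff a| ≤ K' k) ∧
        ∀ j, |(zpt f.X e he).v k ω j - MvPolynomial.eval ((Z.fr (s.lf i).Y).v k ω) (gch (s.lf i) G f c k ω j)| ≤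
          K' k * Z.sp.dl 1 k := by
    refine ⟨fun k => K k + Kp k, Z.Sub_sp.mp (hK.add hKp), ?_⟩
    filter_upwards [hpt, hF, hK.1, hKp.1] with k a1 a2 hK0 hKp0
    intro (ω : (l k).T.Ω) hω hA
    refine ⟨fun j a => (hA j a).trans (by linarith), fun j => ?_⟩
    have hω' : (l k).T.μ ω ≠ 0 := hω
    have e1 : (fun m => crn (s.lf i) c k ((l k).p.π ω) m + S.dl c k * (Z.fr (s.lf i).Y).v k ω m) =
        (s.lf i).Y.v k ((l k).p.π ω) := by
      funext m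
      have hd := (S.dl_pos c k).ne'
      rw [Z.fr_v]
      show S.dl c k * (⌊(s.lf i).Y.v k ((l k).p.π ω) m / S.dl c k⌋ : ℝ) + S.dl c k *
        ((s.lf i).Y.v k ((l k).p.π ω) m / S.dl c k - ⌊(s.lf i).Y.v k ((l k).p.π ω) m / S.dl c k⌋) = _
      field_simp
      ring
    have e2 : (fun m => eval ((s.lf i).Y.v k ((l k).p.π ω)) (G k ((l k).p.π ω) m)) =
        (s.lf i).F k ((l k).p.π ω) ((s.lf i).Y.v k ((l k).p.π ω)) := by
      funext m
      exact (a2 _ ((l k).p.supp ω hω') _ m).symm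
    rw [gch_eval, e1, e2, Z.sp_dl1]
    have h3 := a1 ω hω' j
    have h4 : K k * S.dl e k ≥ 0 := mul_nonneg hK0 (S.dl_pos _ _).le
    show |f.X.v k ω j - _| ≤ (K k + Kp k) * S.dl e k
    rw [add_mul]
    linarith
  have hT' : Typ (S := Z.sp) (fun k (ω : (l k).T.Ω) => ∀ j a, |(gch (s.lf i) G f c k ω j).coeff a| ≤ K k) := hT
  have hzf := Z.zfull (s.lf i) (hl (some i))
  refine ⟨ofPolyT (S := Z.sp) (Q := zpt f.X e he) g hg (s.lf i).e hei (Z.zLa (s.lf i)) (Z.fr (s.lf i).Y)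
    (gch (s.lf i) G f c) hdg fn _ hT' pt hzf, rfl, ?_, ?_, ?_⟩
  · obtain ⟨G', h1, h2⟩ := ofPolyT_wd (S := Z.sp) (Q := zpt f.X e he) g hg (s.lf i).e hei (Z.zLa (s.lf i))
      (Z.fr (s.lf i).Y) (gch (s.lf i) G f c) hdg fn _ hT' pt hzf
    refine ⟨G', Eventually.of_forall fun k ω _ y j => h1 k ω y j, fun k ω j => ?_⟩
    exact (Nat.cast_le.mpr (h2 k ω j)).trans (hdeg k ω j)
  · intro b hb
    exact ⟨PLe.trans (S := Z.sp) (ofPolyT_win_le (S := Z.sp) (Q := zpt f.X e he) g hg (s.lf i).e hei (Z.zLa (s.lf i))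
      (Z.fr (s.lf i).Y) (gch (s.lf i) G f c) hdg fn _ hT' pt hzf b) (Z.win_up (s.lf i) hb),
      PLe.trans (S := Z.sp) (Z.up_win (s.lf i) b) (ofPolyT_win_ge (S := Z.sp) (Q := zpt f.X e he) g hg (s.lf i).e hei
      (Z.zLa (s.lf i)) (Z.fr (s.lf i).Y) (gch (s.lf i) G f c) hdg fn _ hT' pt hzf b)⟩
  · refine ⟨rfl, fun k ω => crn (s.lf i) c k ((l k).p.π ω), fun k ω m => ?_, hT.mono ?_⟩
    · have hd := (S.dl_pos c k).ne'
      show (s.lf i).Y.v k ((l k).p.π ω) m = crn (s.lf i) c k ((l k).p.π ω) m + S.dl c k * (Z.fr (s.lf i).Y).v k ω m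
      rw [Z.fr_v]
      show (s.lf i).Y.v k ((l k).p.π ω) m = S.dl c k * (⌊(s.lf i).Y.v k ((l k).p.π ω) m / S.dl c k⌋ : ℝ) + S.dl c k *
        ((s.lf i).Y.v k ((l k).p.π ω) m / S.dl c k - ⌊(s.lf i).Y.v k ((l k).p.π ω) m / S.dl c k⌋)
      field_simp
      ring
    · filter_upwards [hF] with k a1
      intro (ω : (l k).T.Ω) hω hA y j
      have hω' : (l k).T.μ ω ≠ 0 := hω
      have hS := (l k).p.supp ω hω'
      have hx : (fun m => eval (fun a => crn (s.lf i) c k ((l k).p.π ω) a + S.dl c k * y a) (G k ((l k).p.π ω) m)) =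
          (s.lf i).F k ((l k).p.π ω) (fun a => crn (s.lf i) c k ((l k).p.π ω) a + S.dl c k * y a) := by
        funext m
        exact (a1 _ hS _ m).symm
      have h1 := gch_rel (s.lf i) G f c k ω _ y hx j
      have h2 : ∀ a, (ofPolyT (S := Z.sp) (Q := zpt f.X e he) g hg (s.lf i).e hei (Z.zLa (s.lf i)) (Z.fr (s.lf i).Y)
          (gch (s.lf i) G f c) hdg fn _ hT' pt hzf).F k ω y a = eval y (gch (s.lf i) G f c k ω a) := fun a =>
        ofPolyT_F (S := Z.sp) (Q := zpt f.X e he) g hg (s.lf i).e hei (Z.zLa (s.lf i)) (Z.fr (s.lf i).Y)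
          (gch (s.lf i) G f c) hdg fn _ hT' pt hzf k ω hA y a
      refine h1.trans ?_
      have h3 : (fun a => S.dl (La a) k * eval y (gch (s.lf i) G f c k ω a)) = fun a => S.dl (La a) k *
          (ofPolyT (S := Z.sp) (Q := zpt f.X e he) g hg (s.lf i).e hei (Z.zLa (s.lf i)) (Z.fr (s.lf i).Y)
          (gch (s.lf i) G f c) hdg fn _ hT' pt hzf).F k ω y a := funext fun a => by rw [h2 a]
      rw [h3, ← h2 j]
      rfl

/-- ZOOM IN THE COORDINATES OF A FRAME of a system of polynomial leaves of weighted degree `w` -/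
theorem exists_gz (f : Frm s.Q l La) (hc : 0 < c) (he : 0 < e) (hce : c + e ≤ 1) (hl : s.DMc c l)
    (h1w : ∀ j, 1 ≤ w j) (hLa : ∀ j, La j = w j * c) (hLe : ∀ j, La j + e ≤ 1) {g : ℕ} (hg : 1 ≤ g)
    (hwg : ∀ j, w j ≤ g) (hW : WDs w s) (hei : ∀ i, (s.lf i).e ≤ g) :
    ∃ t : MSys (l.ovr e he) M (lin g) ι, Gz s l c e he f.X t ∧ WDs w t ∧ (∀ i, (t.lf i).e = (s.lf i).e) ∧
      t.Q = zpt f.X e he ∧ ∀ i, Lfr (s.lf i) f c e he (t.lf i) := by
  choose lf h1 h2 h3 h4 using fun i => exists_leaf (s := s) f hc he hce hl h1w hLa hLe hg hwg hW i (hei i)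
  refine ⟨⟨zpt f.X e he, lf⟩, ⟨⟨fun _ => 0, S.Sub_const le_rfl, Eventually.of_forall fun k ω _ j => ?_⟩, ?_⟩, h2, h1, rfl,
    h4⟩
  · show |f.X.v k ω j - f.X.v k ω j| ≤ 0 * S.dl e k
    rw [sub_self, abs_zero, zero_mul]
  · intro b i hb _
    exact h3 i b hb

end build

end

end Pool.Agent.Helper26.OUT
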