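import Pool.Agent.Helper26.OUT.Wd
import Pool.Agent.Helper7.GZ.Sys

/-! ZOOM IN THE COORDINATES OF A FRAME, part 2: facts about ANY zoom (`Gz`) over a label with a frame: the point is known
to the old point, conditions, labels, connectedness. -/

set_option autoImplicit false

namespace Pool.Agent.Helper26.OUT

open Finset Filter Topology Matrix MvPolynomial Pool.Agent.Helper69.RK Pool.Agent.Helper31.EC Pool.Agent.Helper31.EC.Sp
open Pool.Agent.Helper40.EL Pool.Agent.Helper89.LX Pool.Agent.Helper3.LF Pool.Agent.Helper84.MT Pool.Agent.Helper36.AM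

noncomputable section

variable {S : Sp} {M : ℕ} {E E' : ℕ → ℕ} {ι : Type}

theorem ovr_n (l : Lab S) (e : ℝ) (he : 0 < e) (k : ℕ) : ((l.ovr e he).F k).n = e * (S.F k).n := l.n_over e he k

theorem ovr_dl (l : Lab S) (e : ℝ) (he : 0 < e) (r : ℝ) (k : ℕ) : (l.ovr e he).dl r k = S.dl (e * r) k := by
  unfold dl
  rw [ovr_n]
  congr 1
  ring

theorem ovr_Sub (l : Lab S) (e : ℝ) (he : 0 < e) {K : ℕ → ℝ} : S.Sub K ↔ (l.ovr e he).Sub K := by
  have h1 : (fun k => Real.logb 2 (K k + 2) / ((l.ovr e he).F k).n) =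
      fun k => e⁻¹ * (Real.logb 2 (K k + 2) / (S.F k).n) := by
    funext k
    rw [ovr_n]
    have := (S.F k).pos
    field_simp
  unfold Sp.Sub
  rw [h1]
  constructor
  · intro h
    refine ⟨h.1, ?_⟩
    have := h.2.const_mul e⁻¹
    rwa [mul_zero] at this
  · intro h
    refine ⟨h.1, ?_⟩
    have h2 := h.2.const_mul e
    rw [mul_zero] at h2
    refine h2.congr fun k => ?_
    rw [← mul_assoc, mul_inv_cancel₀ he.ne', one_mul]

theorem ovr_Z (l : Lab S) (e : ℝ) (he : 0 < e) (k : ℕ) (ω ω' : (l k).T.Ω)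
    (hh : ((l.ovr e he).F k).Z ω ω') : (l k).V ω ω' ∧ (l k).T.Z ω ω' := ⟨hh.1, hh.2⟩

/-- the normalised point is known to the point -/
theorem X_near {Q : S.VV M} {l : Lab S} {La : Fin M → ℝ} (f : Frm Q l La) (h0 : ∀ i, 0 ≤ La i)
    {κ : ℕ} (hκ : ∀ k ω j, (f.P k ω j).totalDegree ≤ κ) {e : ℝ} (hLe : ∀ j, La j + e ≤ 1) {L : ℕ → ℝ} (hL : S.Sub L) :
    ∃ K : ℕ → ℝ, S.Sub K ∧ ∀ᶠ k in UF, ∀ ω ω' : (l k).T.Ω, (l k).T.μ ω ≠ 0 → (l k).T.μ ω' ≠ 0 → (l k).T.Z ω ω' →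
      (l k).V ω ω' → (∀ i, |Q.v k ((l k).p.π ω) i - Q.v k ((l k).p.π ω') i| ≤ L k * S.dl 1 k) →
        ∀ j, |f.X.v k ω j - f.X.v k ω' j| ≤ K k * S.dl e k := by
  obtain ⟨K, hK, h1⟩ := row_val f h0 hκ (hL.add (S.Sub_const zero_le_one))
  refine ⟨fun k => K k + K k, hK.add hK, ?_⟩
  filter_upwards [h1, f.row_ms, hK.1, hL.1] with k h2 h3 hK0 hL0
  intro ω ω' a b z v hq j
  have hδ := S.dl_pos 1 k
  have h4 : f.row k ω = f.row k ω' := h3 ω ω' a b v z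
  have h5 := h2 ω a (Q.v k ((l k).p.π ω')) (fun i => by
    rw [abs_sub_comm]
    refine (hq i).trans ?_
    exact mul_le_mul_of_nonneg_right (by linarith) hδ.le) j
  have h6 := h2 ω' b (Q.v k ((l k).p.π ω')) (fun i => by
    rw [sub_self, abs_zero]
    exact mul_nonneg (by linarith) hδ.le) j
  rw [h4] at h5
  have h7 : S.dl (1 - La j) k ≤ S.dl e k := S.dl_anti (by linarith [hLe j]) k
  have h8 := mul_le_mul_of_nonneg_left h7 hK0
  have e1 : f.X.v k ω j - f.X.v k ω' j = (eval (Q.v k ((l k).p.π ω')) (f.row k ω' j) - f.X.v k ω' j) -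
      (eval (Q.v k ((l k).p.π ω')) (f.row k ω' j) - f.X.v k ω j) := by ring
  rw [e1, add_mul]
  refine (abs_sub _ _).trans ?_
  linarith

section gz

variable {s : MSys S M E ι} {l : Lab S} {La : Fin M → ℝ} {c e : ℝ} {he : 0 < e} {f : Frm s.Q l La}
  {t : MSys (l.ovr e he) M E' ι}

/-- the point of the zoom is known to the point of the system -/
theorem pcd_up (hG : Gz s l c e he f.X t) (h0 : ∀ i, 0 ≤ La i) {κ : ℕ} (hκ : ∀ k ω j, (f.P k ω j).totalDegree ≤ κ)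
    (hLe : ∀ j, La j + e ≤ 1) : PLe (pcd t.Q) (l.up e he (pcd s.Q)) := by
  obtain ⟨K1, hK1, h1⟩ := hG.pt
  obtain ⟨K2, hK2, h2⟩ := X_near f h0 hκ hLe (S.Sub_const zero_le_one)
  refine PLe_cell (S := l.ovr e he) t.Q 1 (fun k => Setoid.comap (l k).p.π (Setoid.ker (s.Q.cellv 1 k)))
    (fun k => K1 k + K2 k + K1 k) ((ovr_Sub l e he).mp ((hK1.add hK2).add hK1)) ?_
  filter_upwards [h1, h2, hK1.1, hK2.1] with k a1 a2 hK0 hK20
  intro (ω : (l k).T.Ω) (ω' : (l k).T.Ω) a b z r j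
  obtain ⟨z1, z2⟩ := ovr_Z l e he k ω ω' z
  rw [ovr_dl, mul_one]
  have b1 := a1 ω a j
  have b2 := a1 ω' b j
  have b3 := a2 ω ω' a b z2 z1 (fun i => by
    rw [one_mul]
    exact abs_sub_le_of_floor_eq (S.dl_pos 1 k) (congrFun r i)) j
  have e1 : t.Q.v k ω j - t.Q.v k ω' j = (t.Q.v k ω j - f.X.v k ω j) + (f.X.v k ω j - f.X.v k ω' j) -
      (t.Q.v k ω' j - f.X.v k ω' j) := by ring
  rw [e1, add_mul, add_mul]
  refine (abs_sub _ _).trans ?_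
  have := abs_add_le (t.Q.v k ω j - f.X.v k ω j) (f.X.v k ω j - f.X.v k ω' j)
  linarith

/-- CONDITIONS OF THE ZOOM -/
theorem cnd_up (hG : Gz s l c e he f.X t) (h0 : ∀ i, 0 ≤ La i) {κ : ℕ} (hκ : ∀ k ω j, (f.P k ω j).totalDegree ≤ κ)
    (hLe : ∀ j, La j + e ≤ 1) {b : ℝ} (hb : 0 ≤ b) (hb1 : b ≤ 1) (i : Option ι) :
    PLe (t.cnd b i) (l.up e he (s.cnd (c + e * b) i)) := by
  rcases i with _ | i
  · exact pcd_up hG h0 hκ hLe
  · exact (hG.win b i hb hb1).1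

/-- LABELS OF THE ZOOM ARE LABELS OF THE SYSTEM -/
theorem DMc_cl (hG : Gz s l c e he f.X t) (h0 : ∀ i, 0 ≤ La i) {κ : ℕ} (hκ : ∀ k ω j, (f.P k ω j).totalDegree ≤ κ)
    (hLe : ∀ j, La j + e ≤ 1) (hl : s.DMc c l) {b : ℝ} (hb : 0 ≤ b) (hb1 : b ≤ 1) {y : Lab (l.ovr e he)}
    (hy : t.DMc b y) : s.DMc (c + e * b) (l.comp e he y) := by
  have h1 : s.DMc (c + e * b) l := hl.mono (by
    have := mul_nonneg he.le hb
    linarith)
  have h2 : y.DMf (fun i => l.up e he (s.cnd (c + e * b) i)) :=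
    Lab.DMf.mono hy fun i => ⟨i, cnd_up hG h0 hκ hLe hb hb1 i⟩
  exact Lab.DMf.comp h1 h2

/-- OVER A MAXIMAL LABEL THE ZOOM IS CONNECTED at the window `0` -/
theorem Con_zero (hG : Gz s l c e he f.X t) (h0 : ∀ i, 0 ≤ La i) {κ : ℕ} (hκ : ∀ k ω j, (f.P k ω j).totalDegree ≤ κ)
    (hLe : ∀ j, La j + e ≤ 1) (h : s.IsKap c l) : t.Con 0 := by
  have h1 : Lab.Conf (fun i => l.up e he (s.cnd c i)) := Lab.IsMaxf.conf (i₀ := none) h (pcd_Bd s.Q)
  refine Lab.Conf.mono h1 fun i => ⟨i, ?_⟩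
  have h2 := cnd_up hG h0 hκ hLe le_rfl zero_le_one i
  rw [mul_zero, add_zero] at h2
  exact h2

end gz

end

end Pool.Agent.Helper26.OUT
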