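import Pool.Agent.Helper26.OUT.Dz

/-! THE ROWS OF A FRAME EXPAND by `2 ^ (c n)` if all exponents are at least `c`. -/

set_option autoImplicit false

namespace Pool.Agent.Helper26.OUT

open Finset Filter Topology Matrix Pool.Agent.Helper69.RK Pool.Agent.Helper31.EC Pool.Agent.Helper31.EC.Sp
open Pool.Agent.Helper40.EL Pool.Agent.Helper89.LX Pool.Agent.Helper3.LF Pool.Agent.Helper84.MT Pool.Agent.Helper36.AM
open Pool.Agent.Helper95.LF Pool.Agent.Helper81.DC Pool.Agent.Helper7.GZ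

noncomputable section

variable {S : Sp} {M : ℕ} {E : ℕ → ℕ} {ι : Type}

/-- the inverse of a triangular chart expands -/
theorem exp_inv {P : Fin M → MvPolynomial (Fin M) ℝ} (tri : ∀ j, ∀ i ∈ (P j).vars, i < j) (x d : Fin M → ℝ)
    (hd : ∀ i, 0 < d i) {δ L : ℝ} (hδ : ∀ i, d i ≤ δ) (hL0 : 0 ≤ L)
    (hL : ∀ i j, |MvPolynomial.eval (fun i => MvPolynomial.eval x (inv P i)) (MvPolynomial.pderiv i (P j))| ≤ L)
    (v : Fin M → ℝ) : v ⬝ᵥ v ≤ (M ^ 2 * (1 + L) ^ 2 * δ ^ 2) *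
      (dP (fun i => MvPolynomial.C (d i)⁻¹ * inv P i) x v ⬝ᵥ dP (fun i => MvPolynomial.C (d i)⁻¹ * inv P i) x v) := by
  classical
  obtain ⟨J, hJ⟩ : ∃ J : Fin M → ℝ, J = dP (fun i => MvPolynomial.C (d i)⁻¹ * inv P i) x v := ⟨_, rfl⟩
  have h1 : ∀ i, MvPolynomial.eval x (dir v (inv P i)) = d i * J i := by
    intro i
    rw [hJ]
    unfold dP
    rw [eval_dir2, eval_dir2, Finset.mul_sum]
    refine Finset.sum_congr rfl fun a _ => ?_
    have := (hd i).ne'
    rw [MvPolynomial.pderiv_C_mul, map_mul, MvPolynomial.eval_C]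
    field_simp
  rw [← hJ]
  have hs0 : 0 ≤ ∑ i, |J i| := Finset.sum_nonneg fun i _ => abs_nonneg _
  have h2 : ∀ j, |v j| ≤ (1 + L) * δ * ∑ i, |J i| := by
    intro j
    have hδ0 : 0 ≤ δ := (hd j).le.trans (hδ j)
    have h3 := inv_dir tri x v j
    rw [h1] at h3
    rw [h3]
    refine (abs_add_le _ _).trans ?_
    have h4 : |d j * J j| ≤ δ * ∑ i, |J i| := by
      rw [abs_mul, abs_of_pos (hd j)]
      exact mul_le_mul (hδ j) (Finset.single_le_sum (f := fun i => |J i|) (fun i _ => abs_nonneg _)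
        (Finset.mem_univ j)) (abs_nonneg _) hδ0
    have h5 : |∑ i, MvPolynomial.eval (fun i => MvPolynomial.eval x (inv P i)) (MvPolynomial.pderiv i (P j)) *
        MvPolynomial.eval x (dir v (inv P i))| ≤ L * δ * ∑ i, |J i| := by
      rw [Finset.mul_sum]
      refine (Finset.abs_sum_le_sum_abs _ _).trans (Finset.sum_le_sum fun i _ => ?_)
      rw [h1, abs_mul, abs_mul, abs_of_pos (hd i), mul_assoc]
      exact mul_le_mul (hL i j) (mul_le_mul_of_nonneg_right (hδ i) (abs_nonneg _))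
        (mul_nonneg (hd i).le (abs_nonneg _)) hL0
    calc _ ≤ δ * ∑ i, |J i| + L * δ * ∑ i, |J i| := add_le_add h4 h5
      _ = _ := by ring
  have h6 : (∑ i, |J i|) ^ 2 ≤ M * (J ⬝ᵥ J) := by
    have h7 := Finset.sum_mul_sq_le_sq_mul_sq Finset.univ (fun _ : Fin M => (1 : ℝ)) (fun i => |J i|)
    simp only [one_mul, one_pow, Finset.sum_const, Finset.card_univ, Fintype.card_fin, nsmul_eq_mul, mul_one,
      sq_abs] at h7
    refine h7.trans (le_of_eq ?_)
    unfold dotProduct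
    congr 1
    exact Finset.sum_congr rfl fun i _ => by ring
  calc v ⬝ᵥ v = ∑ j, |v j| ^ 2 := by
        unfold dotProduct
        exact Finset.sum_congr rfl fun j _ => by rw [sq_abs]; ring
    _ ≤ ∑ _j : Fin M, ((1 + L) * δ * ∑ i, |J i|) ^ 2 :=
        Finset.sum_le_sum fun j _ => pow_le_pow_left₀ (abs_nonneg _) (h2 j) 2
    _ = M * ((1 + L) ^ 2 * δ ^ 2 * (∑ i, |J i|) ^ 2) := by
        rw [Finset.sum_const, Finset.card_univ, Fintype.card_fin, nsmul_eq_mul]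
        ring
    _ ≤ M * ((1 + L) ^ 2 * δ ^ 2 * (M * (J ⬝ᵥ J))) := by
        apply mul_le_mul_of_nonneg_left _ (Nat.cast_nonneg M)
        exact mul_le_mul_of_nonneg_left h6 (by positivity)
    _ = _ := by ring

/-- FRAMES EXPAND -/
theorem Exs_fr {s : MSys S M E ι} {l : Lab S} {La : Fin M → ℝ} (F : FrZ s l La) (hc : ∀ j, F.c ≤ La j) :
    Exs F.rz := by
  classical
  obtain ⟨K1, hK1, h1⟩ := frow_near F.f F.hκ₀ F.h0 F.hLe (S.Sub_const zero_le_one)
  obtain ⟨Kx, hKx', hx⟩ := F.f.X.bd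
  have hKx : S.Sub Kx := (sp_Sub l).mp hKx'
  obtain ⟨Kc, hKc, hco⟩ := F.f.bd
  have hR : S.Sub (fun k => Kx k + K1 k + 1) := (hKx.add hK1).add (S.Sub_const zero_le_one)
  have hL : S.Sub (fun k => ((F.κ₀ : ℝ) + 1) ^ M * (Kc k * (F.κ₀ * (Kx k + K1 k + 1) ^ F.κ₀))) :=
    (S.Sub_const (by positivity)).mul (hKc.mul ((S.Sub_const (Nat.cast_nonneg _)).mul (Sub_pow' hR _)))
  refine ⟨fun k => M ^ 2 * (1 + ((F.κ₀ : ℝ) + 1) ^ M * (Kc k * (F.κ₀ * (Kx k + K1 k + 1) ^ F.κ₀))) ^ 2,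
    (S.Sub_const (by positivity)).mul (Sub_pow' ((S.Sub_const zero_le_one).add hL) 2), ?_⟩
  refine (Typ_true (S := F.rz.Z.sp)).mono ?_
  filter_upwards [h1, hx, hco, hK1.1, hKx.1, hKc.1] with k a1 a2 a3 b1 b2 b3
  intro (ω : (l k).T.Ω) hω _ v
  have hω' : (l k).T.μ ω ≠ 0 := hω
  have hrow : ∀ j, |MvPolynomial.eval (s.Q.v k ((l k).p.π ω)) (frow F.f k ω j)| ≤ Kx k + K1 k := by
    intro j
    have h2 := a1 ω hω' (s.Q.v k ((l k).p.π ω)) (fun i => by
      rw [sub_self, abs_zero]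
      exact mul_nonneg zero_le_one (S.dl_pos 1 k).le) j
    have h3 : |F.f.X.v k ω j| ≤ Kx k := a2 ω hω j
    have h4 : S.dl F.e k ≤ 1 := by
      rw [← S.dl_zero k]
      exact S.dl_anti F.he.le k
    have h5 := mul_le_mul_of_nonneg_left h4 b1
    have h6 := abs_add_le (MvPolynomial.eval (s.Q.v k ((l k).p.π ω)) (frow F.f k ω j) - F.f.X.v k ω j) (F.f.X.v k ω j)
    rw [sub_add_cancel] at h6
    linarith
  have hU : ∀ j, |MvPolynomial.eval (s.Q.v k ((l k).p.π ω)) (inv (F.f.P k ω) j)| ≤ Kx k + K1 k + 1 := by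
    intro j
    have hd := S.dl_pos (La j) k
    have h2 : MvPolynomial.eval (s.Q.v k ((l k).p.π ω)) (inv (F.f.P k ω) j) =
        S.dl (La j) k * MvPolynomial.eval (s.Q.v k ((l k).p.π ω)) (frow F.f k ω j) := by
      unfold frow
      rw [map_mul, MvPolynomial.eval_C, ← mul_assoc, mul_inv_cancel₀ hd.ne', one_mul]
    rw [h2, abs_mul, abs_of_pos hd]
    have h3 : S.dl (La j) k ≤ 1 := by
      rw [← S.dl_zero k]
      exact S.dl_anti (F.h0 j) k
    have h4 := mul_le_mul h3 (hrow j) (abs_nonneg _) zero_le_one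
    linarith
  have key := exp_inv (P := F.f.P k ω) (F.f.tri k ω) (s.Q.v k ((l k).p.π ω)) (fun j => S.dl (La j) k)
    (fun j => S.dl_pos _ _) (δ := S.dl F.c k)
    (L := ((F.κ₀ : ℝ) + 1) ^ M * (Kc k * (F.κ₀ * (Kx k + K1 k + 1) ^ F.κ₀))) (fun j => S.dl_anti (hc j) k)
    (by positivity) (fun i j => pderiv_le (F.f.P k ω j) (F.hκ₀ k ω j) _ _ _ (by linarith) b3
      (fun i => hU i) (fun a => a3 ω hω j a) i) v
  exact key

/-- the classes given by typical properties of forms are closed under zooms in the coordinates of a frame -/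
theorem PTs_fr [Finite ι] {pr : Prp M} (hpr : RzP pr)
    (hm : ∀ D r (A : Matrix (Mon M D) (Mon M D) ℝ) P B B', B ≤ B' → pr D r A P B → pr D r A P B')
    {s : MSys S M E ι} (h : PTs pr s) {l : Lab S} {La : Fin M → ℝ} (F : FrZ s l La) (hc : ∀ j, F.c ≤ La j) :
    PTs pr F.sys := PTs_rz hpr hm h F.rz (Exs_fr F hc)

/-- equivalent systems -/
theorem PTs_eqv [Finite ι] {pr : Prp M} {E' : ℕ → ℕ} {s : MSys S M E ι} {t : MSys S M E' ι}
    (he : ∀ b, 0 ≤ b → Eqv s t b) (h : PTs pr s) : PTs pr t := by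
  intro D c h0 h1 x hx
  have h2 := h D c h0 h1 x ((he c h0).adf hx)
  intro η hη
  have h3 := h2 η hη
  rw [(he c h0).pt]
  exact h3

end

end Pool.Agent.Helper26.OUT
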