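import Pool.Agent.Helper26.OUT.Mk
import Pool.Agent.Helper26.OUT.Ef

/-! ZOOM IN THE COORDINATES OF A FRAME, all properties of every system `t` whose point is the frame variable and whose
windows are the windows of `s`: labels, connectedness, volumes, hull, the classes `(D_k)`; existence with exact charts
(leaf relation) and weighted degrees. -/

set_option autoImplicit false

namespace Pool.Agent.Helper26.OUT

open Finset Filter Topology Matrix Pool.Agent.Helper69.RK Pool.Agent.Helper31.EC Pool.Agent.Helper31.EC.Sp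
open Pool.Agent.Helper40.EL Pool.Agent.Helper89.LX Pool.Agent.Helper3.LF Pool.Agent.Helper84.MT Pool.Agent.Helper36.AM
open Pool.Agent.Helper95.LF Pool.Agent.Helper81.DC Pool.Agent.Helper7.GZ

noncomputable section

variable {S : Sp} {M : ℕ} {E E' E'' : ℕ → ℕ} {ι : Type}

theorem WDs_WDeg {s : MSys S M E ι} {w : Fin M → ℝ} : WDs w s ↔ WDeg s w := Iff.rfl

/-- two zooms with the same point are equivalent -/
theorem gz_eqv {s : MSys S M E ι} {l : Lab S} {c e : ℝ} {he : 0 < e} {X : l.sp.VV M}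
    {t : MSys (l.ovr e he) M E' ι} {t' : MSys (l.ovr e he) M E'' ι} (h : Gz s l c e he X t) (h' : Gz s l c e he X t')
    (hQ : t'.Q = t.Q) {b : ℝ} (hb : 0 ≤ b) (hb1 : b ≤ 1) : Eqv t t' b where
  pt := hQ
  le := by
    intro i
    rcases i with _ | i
    · show PLe (pcd t'.Q) (pcd t.Q)
      rw [hQ]
      exact PLe.refl (S := l.ovr e he) _
    · exact PLe.trans (S := l.ovr e he) (h'.win b i hb hb1).1 (h.win b i hb hb1).2
  ge := by
    intro i
    rcases i with _ | i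
    · show PLe (pcd t.Q) (pcd t'.Q)
      rw [hQ]
      exact PLe.refl (S := l.ovr e he) _
    · exact PLe.trans (S := l.ovr e he) (h.win b i hb hb1).1 (h'.win b i hb hb1).2

theorem volO_eqv [Finite ι] {s : MSys S M E ι} {t : MSys S M E' ι} {b : ℝ} (h : Eqv s t b) : volO t b = volO s b :=
  iInf_congr fun D => h.vol D

/-- the same for the window `0 ≤ b ≤ 1` only -/
theorem PTs_eqv' [Finite ι] {pr : Prp M} {s : MSys S M E ι} {t : MSys S M E' ι}
    (he : ∀ b, 0 ≤ b → b ≤ 1 → Eqv s t b) (h : PTs pr s) : PTs pr t := by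
  intro D c h0 h1 x hx
  have h2 := h D c h0 h1 x ((he c h0 h1).adf hx)
  intro η hη
  have h3 := h2 η hη
  rw [(he c h0 h1).pt]
  exact h3

section

variable {g : ℕ} {s : MSys S M (lin g) ι} {l : Lab S} {w : Fin M → ℝ} {c e : ℝ} (F : FW g s l w c e)
  {t : MSys (l.ovr e F.he) M E' ι} (hG : Gz s l c e F.he F.f.X t) (hQ : t.Q = zpt F.f.X e F.he)

include hG hQ

theorem eqv_fz {b : ℝ} (hb : 0 ≤ b) (hb1 : b ≤ 1) : Eqv F.fz.sys t b := gz_eqv F.fz.gz hG hQ hb hb1

/-- labels of the zoom are labels of the system -/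
theorem gz_DMc {b : ℝ} (hb : 0 ≤ b) (hb1 : b ≤ 1) {y : Lab (l.ovr e F.he)} (hy : t.DMc b y) :
    s.DMc (c + e * b) (l.comp e F.he y) := F.fz.DMc_cl hb ((eqv_fz F hG hQ hb hb1).DMc hy)

/-- connectedness -/
theorem gz_con (h : s.IsKap c l) : t.Con 0 := (eqv_fz F hG hQ le_rfl zero_le_one).Con (F.fz.con h)

/-- VOLUMES -/
theorem gz_volO [Finite ι] {b : ℝ} (hb : 0 ≤ b) (hb1 : b ≤ 1) :
    volO s (c + e * b) ≤ M - (∑ j, w j) * c - e * (M - volO t b) := by
  have h1 := F.fz.volO_le hb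
  have h2 : volO t b = volO F.fz.sys b := volO_eqv (eqv_fz F hG hQ hb hb1)
  rw [h2, Finset.sum_mul]
  exact h1

/-- HULL -/
theorem gz_hull [Finite ι] (h : (M : ℝ) - (∑ j, w j) * c ≤ volO s c) : volO t 0 = M := by
  have h8 := gz_volO F hG hQ le_rfl zero_le_one
  rw [mul_zero, add_zero] at h8
  apply le_antisymm (volO_le_M t 0)
  have h9 : 0 ≤ -(e * (M - volO t 0)) := by linarith
  have h10 := F.he
  nlinarith

/-- CLASSES GIVEN BY TYPICAL PROPERTIES OF FORMS -/
theorem gz_PTs [Finite ι] {pr : Prp M} (hpr : RzP pr)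
    (hm : ∀ D r (A : Matrix (Mon M D) (Mon M D) ℝ) P B B', B ≤ B' → pr D r A P B → pr D r A P B')
    (h : PTs pr s) : PTs pr t := by
  refine PTs_eqv' (fun b hb hb1 => eqv_fz F hG hQ hb hb1) (PTs_fr hpr hm h F.fz fun j => ?_)
  have h1 := F.hc
  have h2 := mul_le_mul_of_nonneg_right (F.hw j) h1.le
  rw [one_mul] at h2
  exact h2

/-- THE CLASSES `(D_k)` -/
theorem gz_prU [Finite ι] {q : ℕ} (h : PTs (prU M q) s) : PTs (prU M q) t :=
  gz_PTs F hG hQ (prU_RzP q) (fun _ _ _ _ _ _ hB h => UDp.mono h zero_le_one (fun v => by rw [one_mul])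
    (by rw [one_mul]; exact hB)) h

end

/-- THE CLASSES `(D_k)` ARE CLOSED UNDER ZOOMS IN THE COORDINATES OF FRAMES -/
theorem gz_DK {q g r : ℕ} {s : MSys S M (lin g) (Fin r)} {l : Lab S} {w : Fin M → ℝ} {c e : ℝ} (F : FW g s l w c e)
    {t : MSys (l.ovr e F.he) M (lin g) (Fin r)} (hG : Gz s l c e F.he F.f.X t) (hQ : t.Q = zpt F.f.X e F.he)
    (h : DK M q S g r s) : DK M q _ g r t := DK_iff.mpr (gz_prU F hG hQ (DK_iff.mp h))

/-- EXISTENCE, all properties -/
theorem exists_all {g : ℕ} {s : MSys S M (lin g) ι} {l : Lab S} {w : Fin M → ℝ} {c e : ℝ} (F : FW g s l w c e) :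
    ∃ t : MSys (l.ovr e F.he) M (lin g) ι, Gz s l c e F.he F.f.X t ∧ WDs w t ∧ (∀ i, (t.lf i).e = (s.lf i).e) ∧
      t.Q = zpt F.f.X e F.he ∧ ∀ i, Lfr (s.lf i) F.f c e F.he (t.lf i) :=
  exists_gz F.f F.hc F.he F.h1 F.dm F.hw (fun _ => rfl) F.hwe F.hg F.hwg F.wd fun i => by
    have h1 := (s.lf i).he
    unfold Pool.Agent.Helper84.MT.lin at h1
    rw [zero_add, mul_one] at h1
    exact h1

end

end Pool.Agent.Helper26.OUT
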