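import Pool.Agent.Helper26.OUT.La
import Pool.Agent.Helper7.GZ.Zm
import Pool.Agent.Helper81.DC.Pt

/-! ZOOMS IN THE COORDINATES OF ROWS, classes given by typical properties of forms: if the rows expand by `2 ^ (c n)`
in every direction, the classes `(D_k)` are closed under the zoom. -/

set_option autoImplicit false

namespace Pool.Agent.Helper26.OUT

open Finset Filter Topology Matrix Pool.Agent.Helper69.RK Pool.Agent.Helper31.EC Pool.Agent.Helper31.EC.Sp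
open Pool.Agent.Helper40.EL Pool.Agent.Helper89.LX Pool.Agent.Helper3.LF Pool.Agent.Helper84.MT Pool.Agent.Helper36.AM
open Pool.Agent.Helper95.LF Pool.Agent.Helper81.DC Pool.Agent.Helper7.GZ
open Pool.Agent.Helper3.PR (cutm cutm_cpd cutFD cut_typ exp_le)

noncomputable section

variable {S : Sp} {M : ℕ} {E : ℕ → ℕ} {ι : Type}

/-- properties which can be checked for the pull back of the form along a polynomial map which expands -/
def RzP (pr : Prp M) : Prop := ∀ D p : ℕ, ∃ (C : ℝ) (N : ℕ), 0 ≤ C ∧ ∀ (DD : ℕ) (P : Fin M → MvPolynomial (Fin M) ℝ)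
  (A : Matrix (Mon M D) (Mon M D) ℝ), (∀ i, (P i).totalDegree ≤ p) → D * p ≤ DD → A.IsSymm →
    (∀ x, x ⬝ᵥ x ≤ x ⬝ᵥ (A *ᵥ x)) → ∀ (r r' κ K B : ℝ) (x X : Fin M → ℝ), 0 < r → 0 < r' → 0 ≤ κ → 0 ≤ K →
      (∀ j, |X j - MvPolynomial.eval x (P j)| ≤ K * r') → (∀ v, v ⬝ᵥ v ≤ κ * (dP P x v ⬝ᵥ dP P x v)) →
        pr DD r (1 + sbf DD P r' A) x B → pr D r' A X (C * (K + 2) ^ N * κ * B)

theorem prU_RzP (q : ℕ) : RzP (prU M q) := by
  intro D p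
  refine ⟨q * cQ M D, 2 * D, by have := cQ_one M D; positivity, ?_⟩
  intro DD P A hP hDD hs hA r r' κ K B x X hr hr' hκ hK hX hv h
  have hB0 : ∀ x : Mon M D → ℝ, 0 ≤ x ⬝ᵥ (A *ᵥ x) := fun x => (self_nonneg' x).trans (hA x)
  have hPd : PdM A := ⟨hs, fun v hv => (self_pos hv).trans_le (hA v)⟩
  have hc1 := cQ_one M D
  have h1 : ∀ v, dP P x v ⬝ᵥ (Jq r' A X *ᵥ dP P x v) ≤ (cQ M D * (K + 2) ^ (2 * D)) *
      (v ⬝ᵥ (Jq r (1 + sbf DD P r' A) x *ᵥ v)) := by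
    intro v
    have h2 := Jq_comp' A hPd r' r' (K + 2) hr' hr'.le (by linarith) (fun i => MvPolynomial.eval x (P i)) X (fun i => by
      have := hX i
      linarith) (dP P x v)
    refine h2.trans (mul_le_mul_of_nonneg_left ?_ (by positivity))
    refine (Jq_sbf (DD := DD) P hP hDD A hB0 r r' x v).trans ?_
    apply Jq_mono
    intro y
    rw [dv_add, Matrix.one_mulVec]
    have := self_nonneg' y
    linarith
  have h3 : UDp q ((cQ M D * (K + 2) ^ (2 * D)) • Jq r (1 + sbf DD P r' A) x) (cQ M D * (K + 2) ^ (2 * D) * B) := by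
    refine UDp.mono (c := cQ M D * (K + 2) ^ (2 * D)) h (by positivity) (fun v => ?_) le_rfl
    rw [Matrix.smul_mulVec, dotProduct_smul, smul_eq_mul]
  have h4 := UDp_img (G := Jq r' A X) (Jq_nonneg r' hB0 X) hκ h3 (Matrix.mulVecLin (jac P x)) (fun v => by
      rw [Matrix.mulVecLin_apply, jac_mul, Matrix.smul_mulVec, dotProduct_smul, smul_eq_mul]
      exact h1 v) (fun v => by
      rw [Matrix.mulVecLin_apply, jac_mul]
      exact hv v)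
  refine UDp.mono (c := 1) h4 zero_le_one (fun v => by rw [one_mul]) (le_of_eq ?_)
  ring

/-- the rows expand by `2 ^ (c n)` -/
def Exs {s : MSys S M E ι} (z : RZ s M) : Prop := ∃ K : ℕ → ℝ, S.Sub K ∧ Typ (S := z.Z.sp)
  (fun k (ω : (z.Z.l k).T.Ω) => ∀ v : Fin M → ℝ, v ⬝ᵥ v ≤ (K k * S.dl z.Z.c k ^ 2) *
    (dP (z.R.p k ω) (s.Q.v k ((z.Z.l k).p.π ω)) v ⬝ᵥ dP (z.R.p k ω) (s.Q.v k ((z.Z.l k).p.π ω)) v))

theorem dl_sq (c : ℝ) (k : ℕ) : S.dl c k ^ 2 = 2 ^ (-(2 * c * (S.F k).n)) := by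
  have h1 : S.dl c k = 2 ^ (-(c * (S.F k).n)) := rfl
  rw [h1, ← Real.rpow_natCast, ← Real.rpow_mul (by norm_num)]
  congr 1
  push_cast
  ring

/-- CLASSES GIVEN BY TYPICAL PROPERTIES OF FORMS are closed under zooms in the coordinates of expanding rows -/
theorem PTs_rz [Finite ι] {pr : Prp M} (hpr : RzP pr)
    (hm : ∀ D r (A : Matrix (Mon M D) (Mon M D) ℝ) P B B', B ≤ B' → pr D r A P B → pr D r A P B')
    {s : MSys S M E ι} (h : PTs pr s) (z : RZ s M) (hE : Exs z) : PTs pr z.sys := by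
  intro D b hb0 hb1 y hy η hη
  have he := z.Z.hu
  have h0 := mul_nonneg he.le hb0
  have h2 : z.Z.c + z.Z.u * b ≤ 1 := by
    have h3 := mul_le_mul_of_nonneg_left hb1 he.le
    have h4 := z.Z.h1
    linarith
  have h1 := z.hc
  obtain ⟨C, N, hC0, hC⟩ := hpr D z.D
  obtain ⟨KE, hKE, hKT⟩ := hE
  obtain ⟨KX, hKX, hX⟩ := z.hX
  have hDD : D * z.D ≤ D * z.D := le_rfl
  have h3 : Tendsto (fun k => (y k).l.T.pb (fun ω => ¬ pr (D * z.D) (S.dl 1 k) ((z.out (D * z.D) y k).g ω)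
    (s.Q.v k ((z.Z.l k).p.π ((y k).l.p.π ω))) (2 ^ (2 * (z.Z.c + z.Z.u * b + z.Z.u * η / 2) * (S.F k).n)))) UF (𝓝 0) :=
    h (D * z.D) (z.Z.c + z.Z.u * b) (by linarith) h2 _ (z.out_ad hDD hb0 hy) (z.Z.u * η / 2) (by positivity)
  have h4 := h3.add (z.out_typ (D * z.D) hDD hy)
  rw [add_zero] at h4
  have hT : Typ (S := z.Z.sp) (fun k (ω : (z.Z.l k).T.Ω) =>
      (∀ j, |z.X.v k ω j - Rows.val z.Z z.R k ω j| ≤ KX k * S.dl z.Z.u k) ∧
      ∀ v : Fin M → ℝ, v ⬝ᵥ v ≤ (KE k * S.dl z.Z.c k ^ 2) *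
        (dP (z.R.p k ω) (s.Q.v k ((z.Z.l k).p.π ω)) v ⬝ᵥ dP (z.R.p k ω) (s.Q.v k ((z.Z.l k).p.π ω)) v)) :=
    Typ.and (S := z.Z.sp) hX hKT
  have hT' : Tendsto (fun k => (y k).l.T.pb (fun ω => ¬ ((∀ j, |z.X.v k ((y k).l.p.π ω) j -
      Rows.val z.Z z.R k ((y k).l.p.π ω) j| ≤ KX k * S.dl z.Z.u k) ∧
      ∀ v : Fin M → ℝ, v ⬝ᵥ v ≤ (KE k * S.dl z.Z.c k ^ 2) *
        (dP (z.R.p k ((y k).l.p.π ω)) (s.Q.v k ((z.Z.l k).p.π ((y k).l.p.π ω))) v ⬝ᵥ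
          dP (z.R.p k ((y k).l.p.π ω)) (s.Q.v k ((z.Z.l k).p.π ((y k).l.p.π ω))) v)))) UF (𝓝 0) := by
    refine Tendsto.congr (fun k => ?_) hT
    exact (pb_push (y k).l.p _).symm
  have h5 := h4.add hT'
  rw [add_zero] at h5
  have hSub : S.Sub (fun k => C * (KX k + 2) ^ N * KE k) :=
    ((S.Sub_const hC0).mul (Sub_pow' (hKX.add (S.Sub_const (by norm_num))) N)).mul hKE
  show Tendsto (fun k => (y k).l.T.pb (fun ω => ¬ pr D (z.Z.sp.dl 1 k) ((y k).g ω)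
    (z.sys.Q.v k ((y k).l.p.π ω)) (2 ^ (2 * (b + η) * (z.Z.sp.F k).n)))) UF (𝓝 0)
  refine squeeze_zero' (Eventually.of_forall fun k => (y k).l.T.pb_nonneg _) ?_ h5
  filter_upwards [hy 1 one_pos, hSub.eventually_le (show 0 < z.Z.u * η by positivity), hKX.1, hKE.1, z.R.pz_ev]
    with k hk hle hKX0 hKE0 hpz
  refine le_trans (FSp.pb_mono _ ?_) ((pb_or _ _ _).trans (add_le_add (pb_or _ _ _) le_rfl))
  intro ω hω h6
  by_contra hc
  rw [not_or, not_or, not_not, not_not, not_not] at hc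
  obtain ⟨⟨c1, c2⟩, c3, c4⟩ := hc
  apply h6
  have h7 := (hk.2.1 ω hω).1
  rw [z.out_g (D * z.D) k ω c2] at c1
  have e0 : z.R.pz k ((y k).l.p.π ω) = z.R.p k ((y k).l.p.π ω) := hpz _
  have h8 := hC (D * z.D) (z.R.pz k ((y k).l.p.π ω)) ((y k).g ω) (z.R.pz_deg k _) hDD h7.1 h7.2.1 (S.dl 1 k)
    (z.Z.sp.dl 1 k) (KE k * S.dl z.Z.c k ^ 2) (KX k) _ (s.Q.v k ((z.Z.l k).p.π ((y k).l.p.π ω)))
    (z.sys.Q.v k ((y k).l.p.π ω)) (S.dl_pos 1 k) (z.Z.sp.dl_pos 1 k) (by positivity) hKX0 (fun j => by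
      rw [e0, z.Z.sp_dl1]
      exact c3 j) (fun v => by
      rw [e0]
      exact c4 v) c1
  refine hm _ _ _ _ _ _ ?_ h8
  rw [dl_sq, z.Z.sp_n]
  have e1 : C * (KX k + 2) ^ N * (KE k * 2 ^ (-(2 * z.Z.c * (S.F k).n))) *
      2 ^ (2 * (z.Z.c + z.Z.u * b + z.Z.u * η / 2) * (S.F k).n) =
      (C * (KX k + 2) ^ N * KE k) * 2 ^ (2 * (z.Z.u * b + z.Z.u * η / 2) * (S.F k).n) := by
    have e2 : (2 : ℝ) ^ (2 * (z.Z.u * b + z.Z.u * η / 2) * (S.F k).n) = 2 ^ (-(2 * z.Z.c * (S.F k).n)) *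
        2 ^ (2 * (z.Z.c + z.Z.u * b + z.Z.u * η / 2) * (S.F k).n) := by
      rw [← Real.rpow_add (by norm_num)]
      congr 1
      ring
    rw [e2]
    ring
  rw [e1]
  have e3 : (2 : ℝ) ^ (2 * (b + η) * (z.Z.u * (S.F k).n)) = 2 ^ (z.Z.u * η * (S.F k).n) *
      2 ^ (2 * (z.Z.u * b + z.Z.u * η / 2) * (S.F k).n) := by
    rw [← Real.rpow_add (by norm_num)]
    congr 1
    ring
  rw [e3]
  refine mul_le_mul_of_nonneg_right ?_ (by positivity)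
  linarith

end

end Pool.Agent.Helper26.OUT
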