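import Pool.Agent.Helper36.AM.DK

/-! LINEAR ALGEBRA: images of slow directions of a form under a linear map. -/

set_option autoImplicit false

namespace Pool.Agent.Helper26.OUT

open Matrix Pool.Agent.Helper95.LF Pool.Agent.Helper3.LF Pool.Agent.Helper84.MT Pool.Agent.Helper36.AM

noncomputable section

variable {M : ℕ}

/-- values of a nonnegative form on linear combinations -/
theorem qf_sum_le {G : Matrix (Fin M) (Fin M) ℝ} (h0 : ∀ x, 0 ≤ x ⬝ᵥ (G *ᵥ x)) {p : ℕ}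
    (a : Fin p → ℝ) (x : Fin p → Fin M → ℝ) :
    (fun j => ∑ i, a i * x i j) ⬝ᵥ (G *ᵥ (fun j => ∑ i, a i * x i j)) ≤ (∑ i, a i ^ 2) * ∑ i, x i ⬝ᵥ (G *ᵥ x i) := by
  have e0 : (fun j => ∑ i, a i * x i j) = ∑ i, a i • x i := by
    funext j
    rw [Finset.sum_apply]
    rfl
  have e1 : (∑ i, a i • x i) ⬝ᵥ (G *ᵥ (∑ i, a i • x i)) = ∑ i, ∑ j, a i * a j * (x i ⬝ᵥ (G *ᵥ x j)) := by
    rw [Matrix.mulVec_sum, sum_dotProduct]
    refine Finset.sum_congr rfl fun i _ => ?_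
    rw [dotProduct_sum]
    refine Finset.sum_congr rfl fun j _ => ?_
    rw [Matrix.mulVec_smul, smul_dotProduct, dotProduct_smul, smul_eq_mul, smul_eq_mul]
    ring
  have e2 : ∀ i j, a i * a j * (x i ⬝ᵥ (G *ᵥ x j)) + a i * a j * (x j ⬝ᵥ (G *ᵥ x i)) ≤
      a j ^ 2 * (x i ⬝ᵥ (G *ᵥ x i)) + a i ^ 2 * (x j ⬝ᵥ (G *ᵥ x j)) := by
    intro i j
    have h1 := h0 (a j • x i - a i • x j)
    rw [Matrix.mulVec_sub, Matrix.mulVec_smul, Matrix.mulVec_smul, sub_dotProduct, dotProduct_sub, dotProduct_sub,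
      smul_dotProduct, smul_dotProduct, smul_dotProduct, smul_dotProduct, dotProduct_smul, dotProduct_smul,
      dotProduct_smul, dotProduct_smul] at h1
    simp only [smul_eq_mul] at h1
    nlinarith
  have e3 : ∑ i, ∑ j, (a i * a j * (x i ⬝ᵥ (G *ᵥ x j)) + a i * a j * (x j ⬝ᵥ (G *ᵥ x i))) =
      2 * ∑ i, ∑ j, a i * a j * (x i ⬝ᵥ (G *ᵥ x j)) := by
    have e4 : ∑ i, ∑ j, a i * a j * (x j ⬝ᵥ (G *ᵥ x i)) = ∑ i, ∑ j, a i * a j * (x i ⬝ᵥ (G *ᵥ x j)) := by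
      rw [Finset.sum_comm]
      exact Finset.sum_congr rfl fun i _ => Finset.sum_congr rfl fun j _ => by ring
    simp only [Finset.sum_add_distrib]
    rw [e4]
    ring
  have e5 : ∑ i, ∑ j, (a j ^ 2 * (x i ⬝ᵥ (G *ᵥ x i)) + a i ^ 2 * (x j ⬝ᵥ (G *ᵥ x j))) =
      2 * ((∑ i, a i ^ 2) * ∑ i, x i ⬝ᵥ (G *ᵥ x i)) := by
    simp only [Finset.sum_add_distrib]
    have e6 : ∑ i, ∑ j, a j ^ 2 * (x i ⬝ᵥ (G *ᵥ x i)) = (∑ i, a i ^ 2) * ∑ i, x i ⬝ᵥ (G *ᵥ x i) := by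
      rw [Finset.sum_mul_sum, Finset.sum_comm]
    have e7 : ∑ i, ∑ j, a i ^ 2 * (x j ⬝ᵥ (G *ᵥ x j)) = (∑ i, a i ^ 2) * ∑ i, x i ⬝ᵥ (G *ᵥ x i) := by
      rw [Finset.sum_mul_sum]
    rw [e6, e7]
    ring
  have e8 := Finset.sum_le_sum fun i (_ : i ∈ Finset.univ) => Finset.sum_le_sum fun j (_ : j ∈ Finset.univ) => e2 i j
  rw [e3, e5] at e8
  rw [e0, e1]
  linarith

/-- `p` orthonormal vectors in a subspace of dimension `p`, as vectors of coefficients -/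
theorem exists_on {p : ℕ} (u : Fin p → Fin M → ℝ) (hu : ∀ a : Fin p → ℝ, (fun j => ∑ i, a i * u i j) = 0 → a = 0) :
    ∃ A : Fin p → Fin p → ℝ, ∀ i j, (fun l => ∑ t, A i t * u t l) ⬝ᵥ (fun l => ∑ t, A j t * u t l) =
      if i = j then 1 else 0 := by
  classical
  obtain ⟨L, hL⟩ : ∃ L : (Fin p → ℝ) →ₗ[ℝ] EuclideanSpace ℝ (Fin M), ∀ a, (L a).ofLp = fun j => ∑ i, a i * u i j := by
    refine ⟨{
      toFun := fun a => WithLp.toLp 2 (fun j => ∑ i, a i * u i j)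
      map_add' := fun a b => ?_
      map_smul' := fun c a => ?_ }, fun a => rfl⟩
    · ext j
      simp only [Pi.add_apply, add_mul, Finset.sum_add_distrib, WithLp.ofLp_add]
    · ext j
      simp only [Pi.smul_apply, smul_eq_mul, RingHom.id_apply, WithLp.ofLp_smul, Finset.mul_sum, mul_assoc]
  have hinj : Function.Injective L := by
    rw [injective_iff_map_eq_zero]
    intro a ha
    apply hu a
    rw [← hL a, ha]
    rfl
  have hfr : Module.finrank ℝ (LinearMap.range L) = p := by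
    rw [LinearMap.finrank_range_of_inj hinj, Module.finrank_fin_fun]
  obtain ⟨b, -⟩ : ∃ b : OrthonormalBasis (Fin p) ℝ (LinearMap.range L), b = b :=
    ⟨(stdOrthonormalBasis ℝ (LinearMap.range L)).reindex (finCongr hfr), rfl⟩
  have hr : ∀ i, ∃ a : Fin p → ℝ, L a = (b i : EuclideanSpace ℝ (Fin M)) := fun i => (b i).2
  choose A hA using hr
  refine ⟨A, fun i j => ?_⟩
  rw [← hL (A i), ← hL (A j), hA, hA]
  have h1 : inner ℝ (b i : EuclideanSpace ℝ (Fin M)) (b j : EuclideanSpace ℝ (Fin M)) = if i = j then (1 : ℝ) else 0 :=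
    orthonormal_iff_ite.mp b.orthonormal i j
  rw [← h1, EuclideanSpace.inner_eq_star_dotProduct, star_trivial, dotProduct_comm]

/-- IMAGES OF SLOW DIRECTIONS: `J` linear with `|v| ^ 2 ≤ κ |J v| ^ 2` and `G (J v) ≤ G' v` -/
theorem UDp_img {p : ℕ} {G G' : Matrix (Fin M) (Fin M) ℝ} (h0 : ∀ x, 0 ≤ x ⬝ᵥ (G *ᵥ x)) {B κ : ℝ}
    (hκ0 : 0 ≤ κ) (h : UDp p G' B) (J : (Fin M → ℝ) →ₗ[ℝ] (Fin M → ℝ)) (hJ : ∀ v, J v ⬝ᵥ (G *ᵥ J v) ≤ v ⬝ᵥ (G' *ᵥ v))
    (hκ : ∀ v, v ⬝ᵥ v ≤ κ * (J v ⬝ᵥ J v)) : UDp p G (p * κ * B) := by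
  classical
  obtain ⟨v, h1, h2⟩ := h
  have hv : ∀ a : Fin p → ℝ, (fun j => ∑ i, a i * v i j) ⬝ᵥ (fun j => ∑ i, a i * v i j) = ∑ i, a i ^ 2 := by
    intro a
    have e1 : (fun j => ∑ i, a i * v i j) ⬝ᵥ (fun j => ∑ i, a i * v i j) =
        ∑ i, ∑ i', a i * a i' * (v i ⬝ᵥ v i') := by
      unfold dotProduct
      simp only [Finset.sum_mul, Finset.mul_sum]
      rw [Finset.sum_comm]
      refine Finset.sum_congr rfl fun i _ => ?_
      rw [Finset.sum_comm]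
      refine Finset.sum_congr rfl fun i' _ => Finset.sum_congr rfl fun j _ => ?_
      ring
    rw [e1]
    refine Finset.sum_congr rfl fun i _ => ?_
    rw [Finset.sum_eq_single i]
    · rw [h1, if_pos rfl]
      ring
    · intro i' _ hi
      rw [h1, if_neg (fun h => hi h.symm), mul_zero]
    · intro h
      exact absurd (Finset.mem_univ i) h
  have hJs : ∀ a : Fin p → ℝ, J (fun j => ∑ i, a i * v i j) = fun j => ∑ i, a i * J (v i) j := by
    intro a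
    have e1 : (fun j => ∑ i, a i * v i j) = ∑ i, a i • v i := by
      funext j
      rw [Finset.sum_apply]
      rfl
    rw [e1, map_sum]
    funext j
    rw [Finset.sum_apply]
    refine Finset.sum_congr rfl fun i _ => ?_
    rw [map_smul]
    rfl
  obtain ⟨A, hA⟩ := exists_on (fun i => J (v i)) (fun a ha => by
    have h3 := hκ (fun j => ∑ i, a i * v i j)
    rw [hv, hJs, ha, dotProduct_zero, mul_zero] at h3
    have h4 : ∑ i, a i ^ 2 = 0 := le_antisymm h3 (Finset.sum_nonneg fun i _ => sq_nonneg _)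
    rw [Finset.sum_eq_zero_iff_of_nonneg fun i _ => sq_nonneg _] at h4
    funext i
    exact pow_eq_zero_iff two_ne_zero |>.mp (h4 i (Finset.mem_univ i)))
  refine ⟨fun i l => ∑ t, A i t * J (v t) l, hA, fun i => ?_⟩
  have h3 := qf_sum_le h0 (A i) (fun t => J (v t))
  refine h3.trans ?_
  have h4 : ∑ t, A i t ^ 2 ≤ κ := by
    have h5 := hκ (fun j => ∑ t, A i t * v t j)
    rw [hv, hJs, hA, if_pos rfl, mul_one] at h5
    exact h5
  have h6 : ∑ t, J (v t) ⬝ᵥ (G *ᵥ J (v t)) ≤ p * B := by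
    refine (Finset.sum_le_sum fun t _ => (hJ (v t)).trans (h2 t)).trans (le_of_eq ?_)
    rw [Finset.sum_const, Finset.card_univ, Fintype.card_fin, nsmul_eq_mul]
  have h7 : 0 ≤ ∑ t, J (v t) ⬝ᵥ (G *ᵥ J (v t)) := Finset.sum_nonneg fun t _ => h0 _
  calc (∑ t, A i t ^ 2) * ∑ t, J (v t) ⬝ᵥ (G *ᵥ J (v t)) ≤ κ * (p * B) := mul_le_mul h4 h6 h7 hκ0
    _ = p * κ * B := by ring

end

end Pool.Agent.Helper26.OUT
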