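import Pool.Agent.Helper36.AM.Dlow

/-! ZOOM IN THE COORDINATES OF A FRAME, part 1: weighted degrees of compositions, coefficients from values, values of the
rows of a frame near the point. -/

set_option autoImplicit false

namespace Pool.Agent.Helper26.OUT

open Finset Filter Topology Matrix MvPolynomial Pool.Agent.Helper69.RK Pool.Agent.Helper31.EC Pool.Agent.Helper31.EC.Sp
open Pool.Agent.Helper40.EL Pool.Agent.Helper89.LX Pool.Agent.Helper3.LF Pool.Agent.Helper84.MT Pool.Agent.Helper36.AM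

noncomputable section

/-! ### weighted degrees -/

/-- degree of a composition -/
theorem tdeg_bind {e M : ℕ} (P : MvPolynomial (Fin M) ℝ) (H : Fin M → MvPolynomial (Fin e) ℝ) (w : Fin M → ℝ)
    {B : ℝ} (hB : 0 ≤ B) (hP : ∀ a ∈ P.support, a ≠ 0 → ∑ i, (a i : ℝ) * w i ≤ B)
    (hH : ∀ i ∈ P.vars, ((H i).totalDegree : ℝ) ≤ w i) : ((bind₁ H P).totalDegree : ℝ) ≤ B := by
  classical
  have key : (bind₁ H P).totalDegree ≤ ⌊B⌋₊ := by
    have h1 : bind₁ H P = ∑ a ∈ P.support, C (P.coeff a) * ∏ i ∈ a.support, H i ^ a i := by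
      show aeval H P = _
      rw [aeval_def, eval₂_eq]
      rfl
    rw [h1]
    refine totalDegree_finsetSum_le fun a ha => ?_
    refine (totalDegree_mul _ _).trans ?_
    rw [totalDegree_C, zero_add]
    refine (totalDegree_finsetProd _ _).trans ?_
    apply Nat.le_floor
    by_cases h0 : a = 0
    · rw [h0]
      simpa using hB
    · have h2 := hP a ha h0
      refine le_trans ?_ h2
      push_cast
      have h3 : ∑ i, (a i : ℝ) * w i = ∑ i ∈ a.support, (a i : ℝ) * w i := by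
        symm
        apply Finset.sum_subset (Finset.subset_univ _)
        intro i _ hi
        rw [Finsupp.notMem_support_iff.mp hi, Nat.cast_zero, zero_mul]
      rw [h3]
      refine Finset.sum_le_sum fun i hi => ?_
      have h4 : ((H i ^ a i).totalDegree : ℝ) ≤ (a i : ℝ) * (H i).totalDegree := by
        exact_mod_cast totalDegree_pow (H i) (a i)
      refine h4.trans (mul_le_mul_of_nonneg_left (hH i ?_) (Nat.cast_nonneg _))
      exact (mem_vars_iff_mem_support i).mpr ⟨a, ha, hi⟩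
  exact (Nat.cast_le.mpr key).trans (Nat.floor_le hB)

/-- degree of the inverse of a reduced triangular chart along a chart of weighted degree -/
theorem tdeg_inv {e M : ℕ} {P : Fin M → MvPolynomial (Fin M) ℝ} (tri : ∀ j, ∀ i ∈ (P j).vars, i < j) (w : Fin M → ℝ)
    (h0 : ∀ j, 0 ≤ w j) (red : ∀ j, ∀ a ∈ (P j).support, a ≠ 0 → ∑ i, (a i : ℝ) * w i ≤ w j)
    (G : Fin M → MvPolynomial (Fin e) ℝ) (hG : ∀ j, ((G j).totalDegree : ℝ) ≤ w j) (j : Fin M) :
    ((bind₁ G (inv P j)).totalDegree : ℝ) ≤ w j := by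
  have key : ∀ n : ℕ, ∀ j : Fin M, (j : ℕ) < n → ((bind₁ G (inv P j)).totalDegree : ℝ) ≤ w j := by
    intro n
    induction n with
    | zero => intro j hj; omega
    | succ n ih =>
      intro j hj
      have h1 : bind₁ G (inv P j) = G j - bind₁ (fun i => bind₁ G (inv P i)) (P j) := by
        conv_lhs => rw [inv_eq tri j]
        rw [map_sub, bind₁_X_right, bind₁_bind₁]
      rw [h1]
      have h2 : ((bind₁ (fun i => bind₁ G (inv P i)) (P j)).totalDegree : ℝ) ≤ w j :=
        tdeg_bind (P j) _ w (h0 j) (red j) (fun i hi => ih i (by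
          have h3 : (i : ℕ) < j := tri j i hi
          omega))
      have h3 := totalDegree_sub (G j) (bind₁ (fun i => bind₁ G (inv P i)) (P j))
      have h4 : ((G j - bind₁ (fun i => bind₁ G (inv P i)) (P j)).totalDegree : ℝ) ≤
          max ((G j).totalDegree : ℝ) ((bind₁ (fun i => bind₁ G (inv P i)) (P j)).totalDegree : ℝ) := by
        exact_mod_cast h3
      exact h4.trans (max_le (hG j) h2)
  exact key M j j.2

/-- affine changes of the parameter -/
theorem tdeg_aff {e : ℕ} (q : MvPolynomial (Fin e) ℝ) (o : Fin e → ℝ) (δ : ℝ) :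
    (bind₁ (fun i => C (o i) + C δ * X i) q).totalDegree ≤ q.totalDegree := by
  classical
  have h1 : bind₁ (fun i => C (o i) + C δ * X i) q = ∑ a ∈ q.support, C (q.coeff a) *
      ∏ i ∈ a.support, (C (o i) + C δ * X i : MvPolynomial (Fin e) ℝ) ^ a i := by
    show aeval _ q = _
    rw [aeval_def, eval₂_eq]
    rfl
  rw [h1]
  refine totalDegree_finsetSum_le fun a ha => ?_
  refine (totalDegree_mul _ _).trans ?_
  rw [totalDegree_C, zero_add]
  refine (totalDegree_finsetProd _ _).trans ?_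
  have h2 : ∀ i ∈ a.support, ((C (o i) + C δ * X i : MvPolynomial (Fin e) ℝ) ^ a i).totalDegree ≤ a i := by
    intro i _
    refine (totalDegree_pow _ _).trans ?_
    have h3 : (C (o i) + C δ * X i : MvPolynomial (Fin e) ℝ).totalDegree ≤ 1 := by
      refine (totalDegree_add _ _).trans (max_le ?_ ?_)
      · rw [totalDegree_C]
        exact Nat.zero_le _
      · refine (totalDegree_mul _ _).trans ?_
        rw [totalDegree_C, zero_add, totalDegree_X]
    calc a i * _ ≤ a i * 1 := Nat.mul_le_mul_left _ h3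
      _ = a i := mul_one _
  refine (Finset.sum_le_sum h2).trans ?_
  exact le_totalDegree ha

theorem eval_aff {e : ℕ} (q : MvPolynomial (Fin e) ℝ) (o : Fin e → ℝ) (δ : ℝ) (y : Fin e → ℝ) :
    eval y (bind₁ (fun i => C (o i) + C δ * X i) q) = eval (fun i => o i + δ * y i) q := by
  rw [Pool.Agent.Helper81.MI.eval_bind]
  congr 1
  congr 1
  funext i
  rw [map_add, map_mul, eval_C, eval_C, eval_X]

/-! ### coefficients from values at the nodes -/

theorem coeff_nodes (e κ : ℕ) : ∃ C' : ℝ, 0 ≤ C' ∧ ∀ q : MvPolynomial (Fin e) ℝ, q.totalDegree ≤ κ → ∀ A : ℝ, 0 ≤ A →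
    (∀ j : Fin e → Fin (κ + 1), |eval (fun i => nod κ (j i)) q| ≤ A) → ∀ a, |q.coeff a| ≤ C' * A := by
  classical
  obtain ⟨C0, h0, hC⟩ := exists_coeff e κ
  have hN : (0 : ℝ) ≤ (Fintype.card (Fin e → Fin (κ + 1)) : ℝ) := Nat.cast_nonneg _
  refine ⟨Real.sqrt (C0 * Fintype.card (Fin e → Fin (κ + 1))), Real.sqrt_nonneg _, fun q hq A hA hj a => ?_⟩
  obtain ⟨c, rfl⟩ := exists_pol q hq
  have h1 := hC c
  have h2 : ph κ (pol c) 1 0 ≤ Fintype.card (Fin e → Fin (κ + 1)) * A ^ 2 := by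
    unfold ph
    have h3 : ∀ j ∈ (Finset.univ : Finset (Fin e → Fin (κ + 1))), (eval (nodp κ 0 1 j) (pol c)) ^ 2 ≤ A ^ 2 := by
      intro j _
      have h4 : nodp κ (0 : Fin e → ℝ) 1 j = fun i => nod κ (j i) := by
        funext i
        unfold nodp
        simp
      rw [h4, ← sq_abs]
      exact pow_le_pow_left₀ (abs_nonneg _) (hj j) 2
    refine (Finset.sum_le_card_nsmul _ _ _ h3).trans (le_of_eq ?_)
    rw [nsmul_eq_mul, Finset.card_univ]
  by_cases ha : ∃ m : Mon e κ, m.ex = a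
  · obtain ⟨m, rfl⟩ := ha
    rw [coeff_pol]
    have h5 : c m ^ 2 ≤ c ⬝ᵥ c := by
      unfold dotProduct
      rw [pow_two]
      exact Finset.single_le_sum (f := fun i => c i * c i) (fun i _ => mul_self_nonneg _) (Finset.mem_univ m)
    have h6 : c m ^ 2 ≤ C0 * Fintype.card (Fin e → Fin (κ + 1)) * A ^ 2 := by
      refine h5.trans (h1.trans ?_)
      rw [mul_assoc]
      exact mul_le_mul_of_nonneg_left h2 h0
    have h7 := Real.abs_le_sqrt h6
    rw [Real.sqrt_mul (by positivity), Real.sqrt_sq hA] at h7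
    exact h7
  · have h5 : (pol c).coeff a = 0 := by
      by_contra hc
      apply ha
      have h6 : a ∈ (pol c).support := mem_support_iff.mpr hc
      have h7 : ∑ i, a i ≤ κ := by
        have h8 := (le_totalDegree h6).trans (pol_deg c)
        rw [Finsupp.sum_fintype _ _ (fun _ => rfl)] at h8
        exact h8
      refine ⟨⟨fun i => ⟨a i, Nat.lt_succ_of_le ((Finset.single_le_sum (f := fun i => a i) (fun _ _ => Nat.zero_le _)
        (Finset.mem_univ i)).trans h7)⟩, h7⟩, ?_⟩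
      ext i
      rfl
    rw [h5, abs_zero]
    positivity

/-! ### rows of a frame near the point -/

variable {S : Sp} {M : ℕ}

/-- VALUES OF THE ROWS near the point -/
theorem row_val {Q : S.VV M} {l : Lab S} {La : Fin M → ℝ} (f : Frm Q l La) (h0 : ∀ i, 0 ≤ La i)
    {κ : ℕ} (hκ : ∀ k ω j, (f.P k ω j).totalDegree ≤ κ) {L : ℕ → ℝ} (hL : S.Sub L) : ∃ K : ℕ → ℝ, S.Sub K ∧
      ∀ᶠ k in UF, ∀ ω : (l k).T.Ω, (l k).T.μ ω ≠ 0 → ∀ y : Fin M → ℝ,
        (∀ i, |y i - Q.v k ((l k).p.π ω) i| ≤ L k * S.dl 1 k) →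
          ∀ j, |eval y (f.row k ω j) - f.X.v k ω j| ≤ K k * S.dl (1 - La j) k := by
  obtain ⟨Kc, hKc, hc⟩ := f.bd
  obtain ⟨Kp, hKp, hp⟩ := f.pt
  obtain ⟨Kx, hKx', hx⟩ := f.X.bd
  have hKx : S.Sub Kx := (sp_Sub l).mp hKx'
  obtain ⟨N, hN⟩ : ∃ N : ℕ → ℝ, N = fun k => ((κ : ℝ) + 1) ^ M * Kc k * (κ * (Kx k + 1) ^ κ) := ⟨_, rfl⟩
  have hNS : S.Sub N := by rw [hN]; exact Sub_L hKc hKx M κ
  have hE : S.Sub (fun k => (1 + N k) ^ M * (Kp k + L k)) :=
    (Sub_pow' ((S.Sub_const zero_le_one).add hNS) M).mul (hKp.add hL)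
  refine ⟨fun k => (1 + N k) ^ M * (Kp k + L k), hE, ?_⟩
  filter_upwards [hc, hp, hx, hKc.1, hKp.1, hKx.1, hL.1, hE.eventually_le one_pos] with k c1 c2 c3 c4 c5 c6 cL c7
  intro ω hω y hy j
  have hN0 : 0 ≤ N k := by rw [hN]; positivity
  have hδ := S.dl_pos 1 k
  have hd1 : S.dl 1 k * 2 ^ (1 * (S.F k).n) = 1 := by
    unfold Sp.dl
    rw [← Real.rpow_add (by norm_num)]
    norm_num
  have hdi : ∀ i, S.dl (La i) k ≤ 1 := fun i => by
    rw [← S.dl_zero k]
    exact S.dl_anti (h0 i) k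
  have hs : (1 + N k) ^ M * ((Kp k + L k) * S.dl 1 k) ≤ 1 := by
    rw [← mul_assoc]
    have h2 : (1 + N k) ^ M * (Kp k + L k) * S.dl 1 k ≤ 2 ^ (1 * (S.F k).n) * S.dl 1 k :=
      mul_le_mul_of_nonneg_right (by linarith) hδ.le
    rw [mul_comm] at hd1
    linarith
  obtain ⟨U, hU⟩ : ∃ U : Fin M → ℝ, U = fun i => S.dl (La i) k * f.X.v k ω i := ⟨_, rfl⟩
  have hUx : ∀ i, |U i| ≤ S.dl (La i) k * Kx k := by
    intro i
    rw [hU]
    show |S.dl (La i) k * f.X.v k ω i| ≤ _
    rw [abs_mul, abs_of_pos (S.dl_pos _ _)]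
    exact mul_le_mul_of_nonneg_left (c3 ω hω i) (S.dl_pos _ _).le
  have hUB : ∀ i, |U i| ≤ Kx k := fun i => (hUx i).trans (mul_le_of_le_one_left c6 (hdi i))
  have h1 := inv_val (f.tri k ω) (fun j => hκ k ω j) c4 (fun j a => c1 ω hω j a) c6 (by positivity) (by rw [hN]) hs U y
    hUB (fun j => by
      have h2 : |Q.v k ((l k).p.π ω) j - (eval U (f.P k ω j) + U j)| ≤ Kp k * S.dl 1 k := by
        rw [hU]
        exact c2 ω hω j
      have h3 : y j - (eval U (f.P k ω j) + U j) = (y j - Q.v k ((l k).p.π ω) j) +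
          (Q.v k ((l k).p.π ω) j - (eval U (f.P k ω j) + U j)) := by ring
      rw [h3]
      refine (abs_add_le _ _).trans ?_
      have := hy j
      linarith) j
  have hLj := S.dl_pos (La j) k
  show |eval y (C (S.dl (La j) k)⁻¹ * inv (f.P k ω) j) - f.X.v k ω j| ≤ _
  rw [map_mul, eval_C]
  have e1 : (S.dl (La j) k)⁻¹ * eval y (inv (f.P k ω) j) - f.X.v k ω j =
      (S.dl (La j) k)⁻¹ * (eval y (inv (f.P k ω) j) - U j) := by
    rw [hU]
    field_simp
  have e2 : S.dl 1 k = S.dl (La j) k * S.dl (1 - La j) k := by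
    rw [← dl_add]
    congr 1
    ring
  rw [e1, abs_mul, abs_of_pos (inv_pos.2 hLj), inv_mul_le_iff₀ hLj]
  refine h1.trans (le_of_eq ?_)
  rw [e2]
  ring

end

end Pool.Agent.Helper26.OUT
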